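import Pool.Agent.MP_b1aeef_nt.H82.Alg

/-! The divided power monoid algebra over a ring `K`, with size control of lacunary shifts. -/

set_option autoImplicit false

open Finset Polynomial

namespace Pool.Agent.MP_b1aeef_nt.H78

open H82 (M mul_m mul_b one_m one_b)

variable {K : Type} [CommRing K]

/-- additivity on separated digit blocks -/
def QA (q : ℕ) (f : ℕ → K) : Prop := ∀ L a c, a < q ^ L → f (a + q ^ L * c) = f a + f c

variable {q : ℕ} {f : ℕ → K}

theorem QA.zero (hf : QA q f) : f 0 = 0 := by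
  have := hf 0 0 0 (by simp)
  simpa using this

theorem QA.pow_mul (hf : QA q f) (hq : 2 ≤ q) (L c : ℕ) : f (q ^ L * c) = f c := by
  have := hf L 0 c (Nat.pow_pos (by omega))
  rwa [zero_add, hf.zero, zero_add] at this

theorem QA.sum (hf : QA q f) (L n : ℕ) (c : ℕ → ℕ) (h : ∀ l, l < n → c l < q ^ L) :
    f (∑ l ∈ range n, c l * (q ^ L) ^ l) = ∑ l ∈ range n, f (c l) := by
  induction n generalizing c with
  | zero => simp [hf.zero]
  | succ n ih =>
    rw [sum_range_succ', sum_range_succ' (fun l => f (c l)),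
      ← ih (fun l => c (l + 1)) fun l hl => h _ (by omega)]
    have : ∑ k ∈ range n, c (k + 1) * (q ^ L) ^ (k + 1) + c 0 * (q ^ L) ^ 0 =
        c 0 + q ^ L * ∑ k ∈ range n, c (k + 1) * (q ^ L) ^ k := by
      rw [mul_sum, add_comm, pow_zero, mul_one]
      congr 1
      exact sum_congr rfl fun k _ => by ring
    rw [this, hf _ _ _ (h 0 (by omega)), add_comm]

/-- the algebra -/
abbrev A (K : Type) [CommRing K] := MonoidAlgebra K M

/-- basis element -/
noncomputable abbrev sg (g : M) : A K := MonoidAlgebra.single g 1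

theorem sg_mul (g h : M) : (sg g * sg h : A K) = sg (g * h) := by
  simp [sg, MonoidAlgebra.single_mul_single]

/-- the functional of a polynomial -/
noncomputable def tau (f : ℕ → K) (Q : ℕ[X]) : A K →ₗ[K] K :=
  (Finsupp.linearCombination K (fun g : M => f (g.b * Q.coeff g.m))) ∘ₗ
    (MonoidAlgebra.coeffLinearEquiv K).toLinearMap

theorem tau_single (Q : ℕ[X]) (g : M) (r : K) :
    tau f Q (MonoidAlgebra.single g r) = r * f (g.b * Q.coeff g.m) := by
  simp [tau]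

theorem tau_sg (Q : ℕ[X]) (g : M) : tau f Q (sg g) = f (g.b * Q.coeff g.m) := by
  simp [sg, tau_single]

theorem tau_one (Q : ℕ[X]) : tau f Q 1 = f (Q.coeff 0) := by
  rw [show (1 : A K) = sg 1 from rfl, tau_sg]; simp

/-- the shift element -/
noncomputable def E (K : Type) [CommRing K] (d b : ℕ) : A K := ∑ l ∈ range (d + 1), sg ⟨l, b ^ l⟩

/-- the span of the basis elements in a set -/
noncomputable def Sp (K : Type) [CommRing K] (s : Set M) : Submodule K (A K) :=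
  Submodule.span K ((fun g => sg g) '' s)

theorem sg_mem {s : Set M} {g : M} (h : g ∈ s) : (sg g : A K) ∈ Sp K s :=
  Submodule.subset_span ⟨g, h, rfl⟩

theorem Sp_mono {s t : Set M} (h : s ⊆ t) {a : A K} (ha : a ∈ Sp K s) : a ∈ Sp K t :=
  Submodule.span_mono (Set.image_mono h) ha

theorem Sp_ext {N : Type} [AddCommGroup N] [Module K N] {s : Set M} {φ ψ : A K →ₗ[K] N}
    (h : ∀ g ∈ s, φ (sg g) = ψ (sg g)) {a : A K} (ha : a ∈ Sp K s) : φ a = ψ a :=
  LinearMap.eqOn_span (by rintro _ ⟨g, hg, rfl⟩; exact h g hg) ha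

theorem Sp_mul {s t u : Set M} (h : ∀ g ∈ s, ∀ g' ∈ t, g * g' ∈ u) {a b : A K}
    (ha : a ∈ Sp K s) (hb : b ∈ Sp K t) : a * b ∈ Sp K u := by
  have := Submodule.mul_mem_mul ha hb
  rw [Sp, Sp, Submodule.span_mul_span] at this
  refine Submodule.span_le.2 ?_ this
  rintro _ ⟨_, ⟨g, hg, rfl⟩, _, ⟨g', hg', rfl⟩, rfl⟩
  simp only [sg_mul]
  exact sg_mem (h g hg g' hg')

/-- elements of order at least `n` -/
noncomputable def I (K : Type) [CommRing K] (n : ℕ) : Submodule K (A K) := Sp K {g | n ≤ g.m}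

/-- elements with bounded multipliers -/
noncomputable def Bd (K : Type) [CommRing K] (d T : ℕ) : Submodule K (A K) :=
  Sp K {g | d < g.m ∨ g.b ≤ T}

theorem exists_Bd (d : ℕ) (a : A K) : ∃ T, a ∈ Bd K d T := by
  induction a using MonoidAlgebra.induction_linear with
  | zero => exact ⟨0, zero_mem _⟩
  | add x y hx hy =>
    obtain ⟨T, h⟩ := hx
    obtain ⟨T', h'⟩ := hy
    exact ⟨T + T', add_mem (Sp_mono (fun g hg => hg.imp id fun h => by omega) h)
      (Sp_mono (fun g hg => hg.imp id fun h => by omega) h')⟩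
  | single g r =>
    refine ⟨g.b, ?_⟩
    rw [show (MonoidAlgebra.single g r : A K) = r • sg g by simp [sg]]
    exact Submodule.smul_mem _ _ (sg_mem (Or.inr le_rfl))

theorem sg_I {n : ℕ} (g : M) (h : n ≤ g.m) : (sg g : A K) ∈ I K n := sg_mem h

theorem I_mono {n k : ℕ} (h : n ≤ k) {a : A K} (ha : a ∈ I K k) : a ∈ I K n :=
  Sp_mono (fun _ hg => h.trans hg) ha

theorem mem_I_zero (a : A K) : a ∈ I K 0 :=
  let ⟨_, h⟩ := exists_Bd 0 a
  Sp_mono (fun _ _ => Nat.zero_le _) h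

theorem mul_mem_I {n k : ℕ} {a b : A K} (ha : a ∈ I K n) (hb : b ∈ I K k) :
    a * b ∈ I K (n + k) := Sp_mul (fun _ h _ h' => Nat.add_le_add h h') ha hb

theorem E_sub {d : ℕ} (hd : 1 ≤ d) (b : ℕ) : E K d b - 1 - sg ⟨1, b⟩ ∈ I K 2 := by
  obtain ⟨e, rfl⟩ : ∃ e, d = e + 1 := ⟨d - 1, by omega⟩
  rw [E, sum_range_succ', sum_range_succ', pow_zero, show (sg ⟨0, 1⟩ : A K) = 1 from rfl,
    add_sub_cancel_right, zero_add, pow_one, add_sub_cancel_right]
  exact Submodule.sum_mem _ fun l _ => sg_mem (show 2 ≤ l + 1 + 1 by omega)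

theorem E_sub_one {d : ℕ} (hd : 1 ≤ d) (b : ℕ) : E K d b - 1 ∈ I K 1 := by
  have := add_mem (I_mono one_le_two (E_sub (K := K) hd b)) (sg_I ⟨1, b⟩ le_rfl)
  rwa [sub_add_cancel] at this

theorem mul_sub_one {n : ℕ} {x y : A K} (hx : x - 1 ∈ I K n) (hy : y - 1 ∈ I K n) :
    x * y - 1 ∈ I K n := by
  have h0 := mul_mem_I hx (mem_I_zero y)
  rw [add_zero] at h0
  have := add_mem h0 hy
  rwa [show (x - 1) * y + (y - 1) = x * y - 1 by ring] at this

theorem pow_sub_one {n : ℕ} {x : A K} (hx : x - 1 ∈ I K n) (k : ℕ) : x ^ k - 1 ∈ I K n := by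
  induction k with
  | zero => simp
  | succ k ih => rw [pow_succ]; exact mul_sub_one ih hx

theorem pow_pow_sub_one {m : ℕ} (hm : (m : K) = 0) {x : A K} (hx : x - 1 ∈ I K 1) (k : ℕ) :
    x ^ m ^ k - 1 ∈ I K (k + 1) := by
  induction k with
  | zero => simpa using hx
  | succ k ih =>
    have h0 : (m : A K) = 0 := by rw [← map_natCast (algebraMap K (A K)), hm, map_zero]
    have h1 : ∑ j ∈ range m, (x ^ m ^ k) ^ j ∈ I K 1 := by
      have := Submodule.sum_mem (I K 1) fun j (_ : j ∈ range m) =>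
        pow_sub_one (I_mono (by omega) ih) j
      rwa [sum_sub_distrib, sum_const, card_range, nsmul_one, h0, sub_zero] at this
    rw [pow_succ, pow_mul, ← mul_geom_sum]
    exact mul_mem_I ih h1

theorem tau_I (hf : QA q f) {d : ℕ} {Q : ℕ[X]} (hQ : Q.natDegree ≤ d) {a : A K}
    (ha : a ∈ I K (d + 1)) : tau f Q a = 0 :=
  Sp_ext (ψ := 0) (fun g hg => by
    rw [tau_sg, coeff_eq_zero_of_natDegree_lt (lt_of_le_of_lt hQ hg), mul_zero, hf.zero]; rfl) ha

theorem bd_mul {d Z T l b : ℕ} (hZ : 2 ≤ Z) (hb : b ≤ Z) {g : M} (hg : g.b ≤ T)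
    (h : l + g.m ≤ d) : (l + g.m).choose g.m * b ^ l * g.b ≤ Z ^ (2 * d) * T := by
  have h1 : (l + g.m).choose g.m ≤ Z ^ d := (Nat.choose_le_two_pow _ _).trans
    ((Nat.pow_le_pow_right (by omega) h).trans (Nat.pow_le_pow_left hZ _))
  have h2 : b ^ l ≤ Z ^ d :=
    (Nat.pow_le_pow_left hb _).trans (Nat.pow_le_pow_right (by omega) (by omega))
  rw [two_mul, pow_add]
  exact Nat.mul_le_mul (Nat.mul_le_mul h1 h2) hg

theorem E_mul_Bd {d Z T b : ℕ} (hZ : 2 ≤ Z) (hb : b ≤ Z) {a : A K} (ha : a ∈ Bd K d T) :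
    E K d b * a ∈ Bd K d (Z ^ (2 * d) * T) := by
  refine Sp_mul (s := {g | g.b = b ^ g.m}) (fun g h g' h' => ?_)
    (Submodule.sum_mem _ fun l _ => sg_mem rfl) ha
  by_cases h1 : d < g.m + g'.m
  · exact Or.inl h1
  · refine Or.inr ?_
    rw [mul_b, h]
    exact bd_mul hZ hb (h'.resolve_left (by omega)) (by omega)

theorem coeff_le_eval (Q : ℕ[X]) (n : ℕ) : Q.coeff n ≤ Q.eval 1 := by
  rw [eval_eq_sum_range' (n := Q.natDegree + n + 1) (by omega)]
  simp only [one_pow, mul_one]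
  exact single_le_sum (f := Q.coeff) (fun _ _ => Nat.zero_le _) (mem_range.2 (by omega))

theorem eval_le {d : ℕ} {Q : ℕ[X]} (hQ : Q.natDegree ≤ d) {x : ℕ} (hx : 1 ≤ x) :
    Q.eval x ≤ Q.eval 1 * x ^ d := by
  rw [eval_eq_sum_range, eval_eq_sum_range, sum_mul]
  refine sum_le_sum fun l hl => ?_
  rw [one_pow, mul_one]
  exact Nat.mul_le_mul_left _ (Nat.pow_le_pow_right hx (by have := mem_range.1 hl; omega))

theorem shift (hf : QA q f) (hq : 2 ≤ q) {d Z T b L : ℕ} (hZ : 2 ≤ Z) (hb : b ≤ Z) {Q : ℕ[X]}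
    (hQ : Q.natDegree ≤ d) (hL : Z ^ (2 * d) * T * Q.eval 1 < q ^ L) {a : A K}
    (ha : a ∈ Bd K d T) : tau f (taylor (b * q ^ L) Q) a = tau f Q (E K d b * a) := by
  refine Sp_ext (ψ := tau f Q ∘ₗ LinearMap.mulLeft K (E K d b)) (fun g hg => ?_) ha
  have hs := hf.sum L (d + 1) (fun l => (l + g.m).choose g.m * b ^ l * g.b * Q.coeff (l + g.m))
    fun l _ => by
      by_cases h1 : d < l + g.m
      · rw [coeff_eq_zero_of_natDegree_lt (lt_of_le_of_lt hQ h1), mul_zero]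
        exact Nat.pow_pos (by omega)
      · exact lt_of_le_of_lt (Nat.mul_le_mul
          (bd_mul hZ hb (Or.resolve_left hg (by omega)) (by omega)) (coeff_le_eval _ _)) hL
  rw [LinearMap.comp_apply, LinearMap.mulLeft_apply, tau_sg, E, sum_mul, map_sum]
  simp only [sg_mul, tau_sg, mul_b, mul_m]
  rw [← hs, taylor_coeff, eval_eq_sum_range' (n := d + 1)
    (lt_of_le_of_lt (natDegree_hasseDeriv_le Q g.m) (by omega)), mul_sum]
  congr 1
  refine sum_congr rfl fun l _ => ?_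
  rw [hasseDeriv_coeff, mul_pow]
  simp only [Nat.cast_id]
  ring

/-- every product of shift elements is realised -/
theorem reach (hf : QA q f) (hq : 2 ≤ q) {ι : Type} [Fintype ι] {d : ℕ} (Q : ι → ℕ[X])
    (hQ : ∀ i, (Q i).natDegree ≤ d) {γ : A K} (hγ : γ ∈ Submonoid.closure (Set.range (E K d))) :
    ∀ a, ∃ y : ℕ, ∀ i, tau f (taylor y (Q i)) a = tau f (Q i) (γ * a) := by
  induction hγ using Submonoid.closure_induction_right with
  | one => exact fun a => ⟨0, fun i => by simp⟩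
  | mul_right x _ z hz ih =>
    intro a
    obtain ⟨b, rfl⟩ := hz
    obtain ⟨y, hy⟩ := ih (E K d b * a)
    obtain ⟨T, hT⟩ := exists_Bd d a
    obtain ⟨L, hL⟩ : ∃ L, L = (b + 2) ^ (2 * d) * T * ∑ i, (taylor y (Q i)).eval 1 := ⟨_, rfl⟩
    refine ⟨b * q ^ L + y, fun i => ?_⟩
    rw [← taylor_taylor, shift hf hq (Z := b + 2) (by omega) (by omega)
      (by rw [natDegree_taylor]; exact hQ i) (lt_of_le_of_lt (Nat.mul_le_mul_left _
        (single_le_sum (f := fun i => (taylor y (Q i)).eval 1) (fun _ _ => Nat.zero_le _)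
          (mem_univ i))) (hL ▸ Nat.lt_pow_self (by omega))) hT, hy, mul_assoc]

/-- powers of one shift element are realised with polynomial size -/
theorem rep (d R t : ℕ) : ∃ e : ℕ, ∀ (K : Type) [CommRing K] (q : ℕ) (f : ℕ → K), QA q f →
    2 ≤ q → ∀ Z : ℕ, q ≤ Z → ∃ G : ℕ, R ≤ G ∧ G ≤ Z ^ e ∧ ∀ Q : ℕ[X], Q.natDegree ≤ d →
      Q.eval 1 ≤ Z → ∀ b, b ≤ Z → ∀ a ∈ Bd K d (Z ^ t),
        tau f (taylor (b * G) Q) a = tau f Q (E K d b ^ R * a) := by
  induction R generalizing t with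
  | zero => exact ⟨0, fun K _ q f _ _ Z _ => ⟨0, le_rfl, by simp, fun Q _ _ b _ a _ => by simp⟩⟩
  | succ R ih =>
    obtain ⟨e, he⟩ := ih (2 * d + t)
    obtain ⟨u, hu⟩ : ∃ u, u = 2 * d + t + (1 + (e + 2) * d) := ⟨_, rfl⟩
    refine ⟨u + e + 2, fun K _ q f hf hq Z hZ => ?_⟩
    obtain ⟨G, g1, g2, g3⟩ := he K q f hf hq Z hZ
    have z2 : 2 ≤ Z := hq.trans hZ
    have z0 : 0 < Z ^ u := Nat.pow_pos (by omega)
    have l1 := Nat.lt_pow_succ_log_self (show 1 < q by omega) (Z ^ u)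
    have l2 : q ^ (Nat.log q (Z ^ u)).succ ≤ Z ^ (u + 1) := by
      rw [Nat.pow_succ, pow_succ]
      exact Nat.mul_le_mul (Nat.pow_log_le_self q z0.ne') hZ
    generalize (Nat.log q (Z ^ u)).succ = L at l1 l2
    refine ⟨q ^ L + G, by omega, ?_, fun Q hQ hW b hb a ha => ?_⟩
    · have a1 : Z ^ (u + 1) ≤ Z ^ (u + e + 1) := Nat.pow_le_pow_right (by omega) (by omega)
      have a2 : Z ^ e ≤ Z ^ (u + e + 1) := Nat.pow_le_pow_right (by omega) (by omega)
      rw [pow_succ Z (u + e + 1)]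
      nlinarith
    · have a1 : 1 + b * G ≤ Z ^ (e + 2) := by
        have b1 : 1 ≤ Z ^ e * Z := Nat.mul_pos (Nat.pow_pos (by omega)) (by omega)
        have b2 := Nat.mul_le_mul hb g2
        have b3 := Nat.mul_le_mul_left (Z ^ e * Z) z2
        rw [pow_succ, pow_succ]
        linarith
      have a2 : (taylor (b * G) Q).eval 1 ≤ Z ^ (1 + (e + 2) * d) := by
        rw [taylor_eval, pow_add, pow_one, pow_mul]
        exact (eval_le hQ (by omega)).trans (Nat.mul_le_mul hW (Nat.pow_le_pow_left a1 _))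
      rw [mul_add, ← taylor_taylor, shift hf hq z2 hb (by rwa [natDegree_taylor])
        (lt_of_le_of_lt (by rw [hu, pow_add, pow_add]; exact Nat.mul_le_mul_left _ a2) l1) ha,
        g3 Q hQ hW b hb _ (by rw [pow_add]; exact E_mul_Bd z2 hb ha), pow_succ, mul_assoc]

end Pool.Agent.MP_b1aeef_nt.H78
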