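import Mathlib

/-! Digit sums in base `q`: additivity and independence of the dilates modulo `m`. -/

set_option autoImplicit false

open Finset

namespace Pool.Agent.MP_b1aeef_nt.H78

/-- the digit sum -/
def sd (q n : ℕ) : ℕ := (Nat.digits q n).sum

variable {q : ℕ}

theorem sd_zero : sd q 0 = 0 := by simp [sd]

theorem sd_add_mul (hq : 2 ≤ q) (n r : ℕ) (hr : r < q) : sd q (r + q * n) = r + sd q n := by
  rcases Nat.eq_zero_or_pos (r + q * n) with h | h
  · have h1 : r = 0 := by omega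
    have h2 : n = 0 := by
      rcases Nat.mul_eq_zero.1 (show q * n = 0 by omega) with h | h <;> omega
    simp [h1, h2, sd]
  · unfold sd
    rw [Nat.digits_add q (by omega) r n hr (by
      rcases Nat.eq_zero_or_pos n with h0 | h0
      · left; subst h0; omega
      · right; omega)]
    simp

theorem sd_add_pow (hq : 2 ≤ q) (L a c : ℕ) (ha : a < q ^ L) :
    sd q (a + q ^ L * c) = sd q a + sd q c := by
  induction L generalizing a with
  | zero =>
    have : a = 0 := by simpa using ha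
    simp [this, sd_zero]
  | succ L ih =>
    have h1 : a + q ^ (L + 1) * c = a % q + q * (a / q + q ^ L * c) := by
      have := Nat.mod_add_div a q
      rw [pow_succ]
      nlinarith
    have h2 : a / q < q ^ L := by
      rw [pow_succ] at ha
      exact Nat.div_lt_of_lt_mul (by rwa [mul_comm])
    have h3 : sd q a = a % q + sd q (a / q) := by
      conv_lhs => rw [← Nat.mod_add_div a q]
      exact sd_add_mul hq _ _ (Nat.mod_lt _ (by omega))
    rw [h1, sd_add_mul hq _ _ (Nat.mod_lt _ (by omega)), ih _ h2, h3, add_assoc]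

theorem sd_modEq (hq : 2 ≤ q) (n : ℕ) : sd q n ≡ n [MOD q - 1] := by
  obtain ⟨p, rfl⟩ : ∃ p, q = p + 1 := ⟨q - 1, by omega⟩
  rcases Nat.lt_or_ge 1 p with h | h
  · exact (Nat.modEq_digits_sum p (p + 1) (by rw [Nat.add_mod_left, Nat.mod_eq_of_lt h]) n).symm
  · obtain rfl : p = 1 := by omega
    exact Nat.modEq_one

/-- the number of `j < J` with `q ^ (j + 1) ∣ n` -/
def V (q J n : ℕ) : ℕ := ∑ j ∈ range J, if q ^ (j + 1) ∣ n then 1 else 0

theorem sd_succ (hq : 2 ≤ q) (J n : ℕ) (hJ : n + 1 < q ^ (J + 1)) :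
    sd q (n + 1) + (q - 1) * V q J (n + 1) = sd q n + 1 := by
  induction J generalizing n with
  | zero =>
    rw [zero_add, pow_one] at hJ
    have h1 := sd_add_mul hq 0 (n + 1) hJ
    have h2 := sd_add_mul hq 0 n (by omega)
    simp only [mul_zero, add_zero, sd_zero] at h1 h2
    simp [V, h1, h2]
  | succ J ih =>
    by_cases h : q ∣ n + 1
    · obtain ⟨k, hk⟩ := h
      obtain ⟨k, rfl⟩ : ∃ k', k = k' + 1 := ⟨k - 1, by
        rcases Nat.eq_zero_or_pos k with h0 | h0
        · subst h0; omega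
        · omega⟩
      have e1 : n = (q - 1) + q * k := by rw [mul_add] at hk; omega
      have e2 : k + 1 < q ^ (J + 1) := by
        rw [hk, pow_succ' q (J + 1)] at hJ
        exact Nat.lt_of_mul_lt_mul_left hJ
      have e3 : V q (J + 1) (q * (k + 1)) = V q J (k + 1) + 1 := by
        rw [V, sum_range_succ', zero_add, pow_one, if_pos (dvd_mul_right _ _), V]
        congr 1
        refine sum_congr rfl fun j _ => ?_
        simp only [pow_succ' q (j + 1), Nat.mul_dvd_mul_iff_left (show 0 < q by omega)]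
      have e4 := sd_add_mul hq (k + 1) 0 (by omega)
      have e5 := sd_add_mul hq k (q - 1) (by omega)
      have e6 := ih k e2
      rw [zero_add, zero_add] at e4
      rw [hk, e3, e4, e1, e5, mul_add]
      omega
    · have e1 : V q (J + 1) (n + 1) = 0 :=
        sum_eq_zero fun j _ => if_neg fun h1 => h ((dvd_pow_self q (by omega)).trans h1)
      have e2 := Nat.mod_add_div n q
      have e3 := Nat.mod_lt n (show 0 < q by omega)
      have e4 : n % q + 1 < q := by
        by_contra h1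
        exact h ⟨n / q + 1, by rw [mul_add]; omega⟩
      have e5 := sd_add_mul hq (n / q) (n % q) e3
      have e6 := sd_add_mul hq (n / q) (n % q + 1) e4
      rw [e2] at e5
      rw [show n % q + 1 + q * (n / q) = n + 1 by omega] at e6
      rw [e1, e5, e6]
      omega

section Ind

variable {K : Type} [CommRing K] {ι : Type}

theorem div_dvd {c' g X b r : ℕ} (hg : 0 < g) (hX : c' * g * c' < X) (hb : c' * b + r = X)
    (hr0 : 0 < r) (hr : r ≤ c') : c' * g * (b + 1) / X = g ∧ c' * g * b / X = g - 1 := by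
  obtain ⟨g, rfl⟩ : ∃ g', g = g' + 1 := ⟨g - 1, by omega⟩
  obtain ⟨t, rfl⟩ := Nat.exists_eq_add_of_le hr
  have h1 : (r + t) * (g + 1) ≤ (r + t) * (g + 1) * (r + t) := Nat.le_mul_of_pos_right _ (by omega)
  constructor
  · refine Nat.div_eq_of_lt_le ?_ ?_ <;> nlinarith
  · refine Nat.div_eq_of_lt_le ?_ ?_
    · rw [Nat.add_sub_cancel]; nlinarith
    · rw [Nat.add_sub_cancel]; nlinarith

theorem div_not_dvd {c c' X b r : ℕ} (hc : ¬ c' ∣ c) (hX : c * c' < X) (hb : c' * b + r = X)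
    (hr0 : 0 < r) (hr : r ≤ c') : c * (b + 1) / X = c * b / X := by
  have hc' : 0 < c' := by omega
  have e := Nat.div_add_mod c c'
  have e1 := Nat.mod_lt c hc'
  have e2 : 0 < c % c' := Nat.pos_of_ne_zero fun h => hc (Nat.dvd_of_mod_eq_zero h)
  generalize c / c' = k at e
  generalize c % c' = ρ at e e1 e2
  have a1 : k * X ≤ c * b := by
    refine Nat.le_of_mul_le_mul_left ?_ hc'
    have : c * r ≤ c * c' := Nat.mul_le_mul_left _ hr
    have : X ≤ ρ * X := Nat.le_mul_of_pos_left _ e2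
    have : c * X = c' * k * X + ρ * X := by rw [← e]; ring
    have : c * X = c * (c' * b) + c * r := by rw [← hb]; ring
    nlinarith
  have a2 : c * (b + 1) < (k + 1) * X := by
    refine Nat.lt_of_mul_lt_mul_left (a := c') ?_
    have : (ρ + 1) * X ≤ c' * X := Nat.mul_le_mul_right _ e1
    have : c * X = c' * k * X + ρ * X := by rw [← e]; ring
    have : c * X = c * (c' * b) + c * r := by rw [← hb]; ring
    nlinarith [Nat.zero_le (c * r)]
  rw [Nat.div_eq_of_lt_le (a1.trans (Nat.mul_le_mul_left _ (Nat.le_succ b))) a2,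
    Nat.div_eq_of_lt_le a1 (lt_of_le_of_lt (Nat.mul_le_mul_left _ (Nat.le_succ b)) a2)]

/-- the two multipliers on both sides of `q ^ L / c'` -/
theorem jump (hq : 2 ≤ q) (S : Finset ι) (c : ι → ℕ) (hc : ∀ i, 0 < c i) (μ : ι → K)
    (h : ∀ b, ∑ i ∈ S, μ i * (sd q (c i * b) : K) = 0) {c' : ℕ} (hc' : 0 < c') :
    ∃ κ : K, ∀ y : ℕ, ∑ i ∈ S.filter (fun i => c' ∣ c i),
      μ i * ((sd q (c i / c' * (1 + c' * y)) : K) - sd q (c i / c' * (1 + c' * y) - 1)) = κ := by
  obtain ⟨L, hL⟩ : ∃ L, L = (∑ i ∈ S, c i) * c' := ⟨_, rfl⟩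
  have hX0 : ∀ i ∈ S, c i * c' < q ^ L := fun i hi =>
    lt_of_le_of_lt (Nat.mul_le_mul_right _ (single_le_sum (fun _ _ => Nat.zero_le _) hi))
      (hL ▸ Nat.lt_pow_self (by omega))
  have hXp : 0 < q ^ L := Nat.pow_pos (by omega)
  have split : ∀ i b' y, sd q (c i * (b' + q ^ L * y)) =
      sd q (c i * b' % q ^ L) + sd q (c i * b' / q ^ L + c i * y) := by
    intro i b' y
    rw [← sd_add_pow hq L _ _ (Nat.mod_lt (c i * b') hXp)]
    congr 1
    have := Nat.mod_add_div (c i * b') (q ^ L)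
    nlinarith
  generalize q ^ L = X at hX0 hXp split
  obtain ⟨b, r, hb, hr0, hr⟩ : ∃ b r, c' * b + r = X ∧ 0 < r ∧ r ≤ c' :=
    ⟨(X - 1) / c', (X - 1) % c' + 1, by have := Nat.div_add_mod (X - 1) c'; omega, by omega,
      Nat.mod_lt _ hc'⟩
  refine ⟨-∑ i ∈ S, μ i * ((sd q (c i * (b + 1) % X) : K) - sd q (c i * b % X)), fun y => ?_⟩
  rw [eq_neg_iff_add_eq_zero, sum_filter, ← sum_add_distrib]
  refine Eq.trans ?_ (sub_eq_zero.2 ((h (b + 1 + X * y)).trans (h (b + X * y)).symm))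
  rw [← sum_sub_distrib]
  refine sum_congr rfl fun i hi => ?_
  rw [split, split]
  split_ifs with hd
  · obtain ⟨g, hg⟩ := hd
    have hg0 : 0 < g := Nat.pos_of_ne_zero fun h0 => by
      have := hc i
      rw [hg, h0] at this
      omega
    have h1 := div_dvd hg0 (hg ▸ hX0 i hi) hb hr0 hr
    rw [← hg] at h1
    have e0 : c i / c' = g := by rw [hg, Nat.mul_div_cancel_left _ hc']
    have e1 : g * (1 + c' * y) = g + c i * y := by rw [hg]; ring
    rw [h1.1, h1.2, e0, e1, show g + c i * y - 1 = g - 1 + c i * y by omega]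
    push_cast; ring
  · rw [div_not_dvd hd (hX0 i hi) hb hr0 hr]
    push_cast; ring

/-- inversion along divisibility -/
theorem mob {τ : Type} (T : Finset τ) (w : τ → K) (f : τ → ℕ) (a₀ : ℕ) (κ : K)
    (h : ∀ a, a ∣ a₀ → ∑ t ∈ T, (if f t ∣ a then w t else 0) = κ) (a : ℕ) (ha : a ∣ a₀)
    (h1 : 1 < a) : ∑ t ∈ T, (if f t = a then w t else 0) = 0 := by
  induction a using Nat.strong_induction_on with
  | _ a ih =>
    have e : ∑ t ∈ T, (if f t ∣ a then w t else 0) =
        ∑ a' ∈ a.divisors, ∑ t ∈ T, (if f t = a' then w t else 0) := by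
      rw [sum_comm]
      refine sum_congr rfl fun t _ => ?_
      rw [sum_ite_eq]
      simp only [Nat.mem_divisors, ne_eq, show ¬ a = 0 by omega, not_false_eq_true, and_true]
    have e1 := h 1 (one_dvd _)
    simp only [Nat.dvd_one] at e1
    have hs : ({1, a} : Finset ℕ) ⊆ a.divisors := by
      intro x hx
      simp only [mem_insert, mem_singleton] at hx
      rcases hx with rfl | rfl <;> simp <;> omega
    rw [h a ha, ← sum_subset hs fun x hx hx' => by
      simp only [mem_insert, mem_singleton, not_or] at hx'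
      have d1 := Nat.dvd_of_mem_divisors hx
      have d2 := Nat.pos_of_mem_divisors hx
      have d3 := Nat.le_of_dvd (by omega) d1
      exact ih x (by omega) (d1.trans ha) (by omega), sum_pair (by omega), e1] at e
    exact left_eq_add.1 e

theorem dvd_mul_iff_div_gcd {x g : ℕ} (hx : 0 < x) (a : ℕ) : x ∣ g * a ↔ x / x.gcd g ∣ a := by
  have hG : 0 < x.gcd g := Nat.gcd_pos_of_pos_left _ hx
  obtain ⟨u, v, huv, h1, h2⟩ := Nat.exists_coprime x g
  generalize x.gcd g = G at *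
  rw [h1, h2, Nat.mul_div_cancel _ hG, mul_right_comm, Nat.mul_dvd_mul_iff_right hG]
  exact huv.dvd_mul_left

theorem eq_of_pow {c c' u v : ℕ} (hq : 2 ≤ q) (h1 : ¬ q ∣ c) (h2 : ¬ q ∣ c')
    (h : q ^ u * c = q ^ v * c') : c = c' := by
  have hq0 : 0 < q := by omega
  have k : ∀ {c c' u v : ℕ}, ¬ q ∣ c → q ^ u * c = q ^ v * c' → ¬ u < v := by
    intro c c' u v h1 h huv
    obtain ⟨k, rfl⟩ := Nat.exists_eq_add_of_lt huv
    refine h1 ⟨q ^ k * c', Nat.eq_of_mul_eq_mul_left (show 0 < q ^ u by positivity) ?_⟩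
    rw [h]; ring
  obtain rfl : u = v := by have := k h1 h; have := k h2 h.symm; omega
  exact Nat.eq_of_mul_eq_mul_left (Nat.pow_pos (by omega)) h

/-- the dilates of the digit sum are independent up to the factor `q - 1` -/
theorem indep (hq : 2 ≤ q) (S₀ : Finset {c : ℕ // ¬ q ∣ c}) (μ : {c : ℕ // ¬ q ∣ c} → K)
    (h : ∀ b, ∑ i ∈ S₀, μ i * (sd q (i.1 * b) : K) = 0) :
    ∀ i ∈ S₀, ((q - 1 : ℕ) : K) * μ i = 0 := by
  classical
  by_contra hn
  obtain ⟨S, hS₀⟩ : ∃ S, S = S₀.filter fun i => ((q - 1 : ℕ) : K) * μ i ≠ 0 := ⟨_, rfl⟩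
  have hS : ∀ i ∈ S, ((q - 1 : ℕ) : K) * μ i ≠ 0 := fun i hi => by
    rw [hS₀] at hi; exact (mem_filter.1 hi).2
  have hne : S.Nonempty := by
    push Not at hn
    obtain ⟨i, hi, h1⟩ := hn
    exact ⟨i, by rw [hS₀]; exact mem_filter.2 ⟨hi, h1⟩⟩
  have hc : ∀ i : {c : ℕ // ¬ q ∣ c}, 0 < i.1 := fun i =>
    Nat.pos_of_ne_zero fun h0 => i.2 (h0 ▸ dvd_zero q)
  obtain ⟨c', hc', hmax⟩ := exists_max_image
    ((S.biUnion fun i => i.1.divisors).filter fun x => x.Coprime q) id
    ⟨1, by obtain ⟨i, hi⟩ := hne; simp; exact ⟨i.1, ⟨i.2, hi⟩, (hc i).ne'⟩⟩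
  obtain ⟨hc1, hco⟩ := mem_filter.1 hc'
  obtain ⟨i₀, hi₀, hd₀⟩ := mem_biUnion.1 hc1
  have hp : 0 < c' := Nat.pos_of_mem_divisors hd₀
  obtain ⟨κ, hκ⟩ : ∃ κ : K, ∀ y : ℕ, ∑ i ∈ S.filter (fun i => c' ∣ i.1),
      μ i * ((sd q (i.1 / c' * (1 + c' * y)) : K) - sd q (i.1 / c' * (1 + c' * y) - 1)) = κ := by
    obtain ⟨κ, hκ⟩ := jump hq S₀ (fun i => i.1) hc μ h hp
    refine ⟨κ - ∑ i ∈ (S₀.filter fun i => c' ∣ i.1).filter
      fun i => ¬ ((q - 1 : ℕ) : K) * μ i ≠ 0, μ i, fun y => ?_⟩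
    rw [← hκ y, ← sum_filter_add_sum_filter_not (S₀.filter fun i => c' ∣ i.1)
      (fun i => ((q - 1 : ℕ) : K) * μ i ≠ 0), hS₀, filter_comm, add_sub_assoc, left_eq_add,
      sub_eq_zero]
    refine sum_congr rfl fun i hi => ?_
    obtain ⟨h1, h2⟩ := mem_filter.1 hi
    obtain ⟨n, hn⟩ : ∃ n, i.1 / c' * (1 + c' * y) = n + 1 := ⟨_, (Nat.succ_pred_eq_of_pos
      (Nat.mul_pos (Nat.div_pos (Nat.le_of_dvd (hc i) (mem_filter.1 h1).2) hp) (by omega))).symm⟩
    have e4 := congrArg (Nat.cast : ℕ → K) (sd_succ hq (n + 1) n (lt_of_lt_of_le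
      (Nat.lt_pow_self (show 1 < q by omega)) (Nat.pow_le_pow_right (by omega) (by omega))))
    simp only [Nat.cast_add, Nat.cast_mul, Nat.cast_one] at e4
    rw [hn, Nat.add_sub_cancel]
    linear_combination μ i * e4 - (V q (n + 1) (n + 1) : K) * not_not.1 h2
  obtain ⟨N, hN⟩ : ∃ N, N = ∑ i ∈ S, i.1 := ⟨_, rfl⟩
  have hNi : ∀ i ∈ S, i.1 ≤ N := fun i hi =>
    hN ▸ single_le_sum (f := fun i : {c : ℕ // ¬ q ∣ c} => i.1) (fun _ _ => Nat.zero_le _) hi
  have hg : ∀ i ∈ S.filter (fun i => c' ∣ i.1), 0 < i.1 / c' ∧ i.1 / c' ∣ q ^ N := by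
    intro i hi
    obtain ⟨hi, hd⟩ := mem_filter.1 hi
    have g0 : 0 < i.1 / c' := Nat.div_pos (Nat.le_of_dvd (hc i) hd) hp
    refine ⟨g0, ((Nat.dvd_pow_self_iff g0.ne' (by omega)).2 fun p hp' => ?_).trans
      (pow_dvd_pow _ ((Nat.div_le_self _ _).trans (hNi i hi)))⟩
    have pp := Nat.prime_of_mem_primeFactors hp'
    refine Nat.mem_primeFactors.2 ⟨pp, ?_, by omega⟩
    by_contra hpq
    have := hmax (c' * p) (mem_filter.2 ⟨mem_biUnion.2 ⟨i, hi, Nat.mem_divisors.2
      ⟨(Nat.dvd_div_iff_mul_dvd hd).1 (Nat.dvd_of_mem_primeFactors hp'), (hc i).ne'⟩⟩,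
      Nat.Coprime.mul_left hco ((Nat.Prime.coprime_iff_not_dvd pp).2 hpq)⟩)
    have := pp.two_le
    simp only [id] at *
    nlinarith
  have m₀ : i₀ ∈ S.filter (fun i => c' ∣ i.1) := mem_filter.2 ⟨hi₀, Nat.dvd_of_mem_divisors hd₀⟩
  have hN1 : 1 ≤ N := (hc i₀).trans_le (hNi _ hi₀)
  have hqN : 0 < q ^ N := Nat.pow_pos (by omega)
  obtain ⟨e, he⟩ := (hg i₀ m₀).2
  have he0 : 0 < e := Nat.pos_of_ne_zero fun h0 => by rw [h0] at he; omega
  generalize hT : S.filter (fun i => c' ∣ i.1) = T at *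
  have key := mob (T ×ˢ range (3 * N)) (fun t => ((q - 1 : ℕ) : K) * μ t.1)
    (fun t => q ^ (t.2 + 1) / (q ^ (t.2 + 1)).gcd (t.1.1 / c')) (q ^ N * e)
    (∑ i ∈ T, μ i - κ) (fun a ha => ?_) _ dvd_rfl
    (lt_of_lt_of_le (Nat.one_lt_pow (by omega) (by omega)) (Nat.le_mul_of_pos_right _ he0))
  · rw [sum_eq_single_of_mem (i₀, 2 * N - 1) (mem_product.2 ⟨m₀, mem_range.2 (by omega)⟩),
      if_pos] at key
    · exact hS i₀ hi₀ key
    · simp only
      rw [show 2 * N - 1 + 1 = N + N by omega, pow_add,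
        Nat.gcd_eq_right ((hg i₀ m₀).2.mul_left _)]
      exact Nat.div_eq_of_eq_mul_right (hg i₀ m₀).1 (by linear_combination q ^ N * he)
    · rintro ⟨i, j⟩ ht hne'
      refine if_neg fun h1 => hne' ?_
      simp only at h1
      have hi := (mem_product.1 ht).1
      have hj : N ≤ j + 1 := by
        by_contra h2
        have a1 : q ^ (j + 1) < q ^ N := Nat.pow_lt_pow_right (by omega) (by omega)
        have a2 := Nat.div_le_self (q ^ (j + 1)) ((q ^ (j + 1)).gcd (i.1 / c'))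
        have a3 := Nat.le_mul_of_pos_right (q ^ N) he0
        omega
      have d1 := (hg i hi).2.trans (pow_dvd_pow q hj)
      rw [Nat.gcd_eq_right d1] at h1
      have d2 := Nat.mul_div_cancel' d1
      have d3 : c' * (i.1 / c') = i.1 := Nat.mul_div_cancel' (by
        rw [← hT] at hi; exact (mem_filter.1 hi).2)
      have d4 := Nat.mul_div_cancel' (Nat.dvd_of_mem_divisors hd₀)
      have d5 : q ^ (j + 1) * i₀.1 = q ^ (N + N) * i.1 := by
        rw [h1] at d2
        rw [pow_add q N N]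
        generalize i.1 / c' = g at d2 d3
        generalize i₀.1 / c' = g₀ at he d4
        rw [← d2, ← d3, ← d4]
        zify at he ⊢
        linear_combination (-(g : ℤ) * q ^ N * c') * he
      obtain rfl : i₀ = i := Subtype.ext (eq_of_pow hq i₀.2 i.2 d5)
      have d6 := Nat.pow_right_injective hq (Nat.eq_of_mul_eq_mul_right (hc i₀) d5)
      rw [show 2 * N - 1 = j by omega]
  · have a0 : 0 < a := Nat.pos_of_dvd_of_pos ha (by positivity)
    have a1 : a ∣ q ^ (N + N) := ha.trans (by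
      rw [pow_add]; exact Nat.mul_dvd_mul_left _ ⟨i₀.1 / c', by rw [he, mul_comm]⟩)
    have a2 : a.Coprime c' := Nat.Coprime.coprime_dvd_left a1 (hco.symm.pow_left _)
    obtain ⟨w, hw1, hw2⟩ : ∃ w, a * w ≡ 1 [MOD c'] ∧ w ≡ 1 [MOD q] := by
      obtain ⟨x, hx⟩ := Nat.exists_mul_mod_eq_of_coprime 1 a2 hp.ne'
      obtain ⟨w, h1, h2⟩ := Nat.chineseRemainder hco x 1
      exact ⟨w, (h1.mul_left a).trans hx.2, h2⟩
    have w1 : w.Coprime q := by
      rw [Nat.Coprime, hw2.gcd_eq]; simp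
    have w0 : 0 < w := Nat.pos_of_ne_zero fun h0 => by
      rw [h0, Nat.coprime_zero_left] at w1; omega
    obtain ⟨y, hy⟩ := (Nat.modEq_iff_dvd' (Nat.mul_pos a0 w0)).1 hw1.symm
    have hy' : 1 + c' * y = a * w := by have := Nat.mul_pos a0 w0; omega
    have e1 := hκ y
    rw [hy'] at e1
    rw [sum_product, ← e1, ← sum_sub_distrib]
    refine sum_congr rfl fun i hi => ?_
    obtain ⟨g0, g1⟩ := hg i hi
    simp only
    generalize i.1 / c' = g at g0 g1 ⊢
    obtain ⟨n, hn⟩ : ∃ n, g * (a * w) = n + 1 :=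
      ⟨g * (a * w) - 1, by have := Nat.mul_pos g0 (Nat.mul_pos a0 w0); omega⟩
    have e2 := sd_succ hq (3 * N + n) n (lt_of_lt_of_le (Nat.lt_pow_self (show 1 < q by omega))
      (Nat.pow_le_pow_right (show 0 < q by omega) (show n + 1 ≤ 3 * N + n + 1 by omega)))
    have e3 : V q (3 * N + n) (n + 1) = ∑ j ∈ range (3 * N), if q ^ (j + 1) ∣ g * a then 1 else 0 := by
      rw [V, sum_range_add, ← hn, ← mul_assoc, sum_eq_zero (s := range n), add_zero]
      · exact sum_congr rfl fun j _ => by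
          simp only [(w1.symm.pow_left (j + 1)).dvd_mul_right]
      · refine fun j _ => if_neg fun h1 => ?_
        rw [(w1.symm.pow_left _).dvd_mul_right] at h1
        have b1 := (Nat.pow_dvd_pow_iff_le_right (show 1 < q by omega)).1
          (h1.trans (pow_add q N (N + N) ▸ Nat.mul_dvd_mul g1 a1))
        omega
    have e4 := congrArg (Nat.cast : ℕ → K) e2
    rw [e3] at e4
    simp only [Nat.cast_add, Nat.cast_mul, Nat.cast_sum, Nat.cast_ite, Nat.cast_one,
      Nat.cast_zero] at e4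
    have e5 : ∀ z : K, (∑ j ∈ range (3 * N), if q ^ (j + 1) / (q ^ (j + 1)).gcd g ∣ a then z else 0)
        = z * ∑ j ∈ range (3 * N), if q ^ (j + 1) ∣ g * a then 1 else 0 := fun z => by
      rw [mul_sum]
      refine sum_congr rfl fun j _ => ?_
      simp only [dvd_mul_iff_div_gcd (show 0 < q ^ (j + 1) by positivity), mul_ite, mul_one,
        mul_zero]
    rw [e5, hn, Nat.add_sub_cancel]
    linear_combination μ i * e4

end Ind

end Pool.Agent.MP_b1aeef_nt.H78
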