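import Pool.Agent.MP_b1aeef_nt.H78.Alg
import Pool.Agent.MP_b1aeef_nt.H78.Dig

/-! Cauchy-Schwarz on the finite group of lacunary shifts. -/

set_option autoImplicit false

open Finset Polynomial Filter

namespace Pool.Agent.MP_b1aeef_nt.H78

open H82 (M mul_m mul_b one_m one_b)

section Fam

variable {K : Type} [CommRing K] {q p : ℕ} {f : ℕ → K}

/-- the dilates of `f` -/
def nu (q : ℕ) (f : ℕ → K) (c : {c : ℕ // ¬ q ∣ c}) (b : ℕ) : K := f (c.1 * b)

/-- the span of the dilates by multiples of `p` -/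
noncomputable def Fam (q p : ℕ) (f : ℕ → K) : Submodule K (ℕ → K) :=
  (Finsupp.supported K K {c | p ∣ c.1}).map (Finsupp.linearCombination K (nu q f))

/-- independence of the dilates up to the factor `p` -/
structure WI (q p : ℕ) (f : ℕ → K) : Prop where
  ind : ∀ μ, Finsupp.linearCombination K (nu q f) μ = 0 → (p : K) • μ = 0
  dvd : ∀ n, p ∣ n → ∃ k, f n = p * k
  cop : p.Coprime q

theorem exists_rep (hq : 2 ≤ q) {n : ℕ} (hn : 0 < n) :
    ∃ (r : {c : ℕ // ¬ q ∣ c}) (e : ℕ), n = q ^ e * r.1 :=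
  let ⟨e, r, h1, h2⟩ := Nat.exists_eq_pow_mul_and_not_dvd hn.ne' q (by omega)
  ⟨⟨r, h1⟩, e, h2⟩

theorem nm_pos (c : {c : ℕ // ¬ q ∣ c}) : 0 < c.1 :=
  Nat.pos_of_ne_zero fun h0 => c.2 (h0 ▸ dvd_zero q)

theorem exists_dil (hf : QA q f) (hq : 2 ≤ q) {t : ℕ} (ht : 0 < t) :
    ∃ ρ : {c : ℕ // ¬ q ∣ c} → {c : ℕ // ¬ q ∣ c}, Function.Injective ρ ∧
      (t.Coprime q → ∀ c, (ρ c).1 = t * c.1) ∧ (∀ c, ∃ e, t * c.1 = q ^ e * (ρ c).1) ∧
      ∀ μ, (fun b => Finsupp.linearCombination K (nu q f) μ (t * b)) =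
        Finsupp.linearCombination K (nu q f) (μ.mapDomain ρ) := by
  choose ρ e h using fun c : {c : ℕ // ¬ q ∣ c} => exists_rep hq (Nat.mul_pos ht (nm_pos c))
  refine ⟨ρ, fun c c' hc => Subtype.ext (eq_of_pow (u := e c') (v := e c) hq c.2 c'.2 ?_),
    fun hco c => ?_, fun c => ⟨_, h c⟩, fun μ => ?_⟩
  · refine Nat.eq_of_mul_eq_mul_left ht ?_
    rw [mul_left_comm, h c, mul_left_comm t, h c', hc, mul_left_comm]
  · exact eq_of_pow (u := e c) (v := 0) hq (ρ c).2
      (fun h1 => c.2 (hco.symm.dvd_of_dvd_mul_left h1)) (by rw [← h c, pow_zero, one_mul])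
  · funext b
    rw [Finsupp.linearCombination_mapDomain]
    simp only [Finsupp.linearCombination_apply, Finsupp.sum, Finset.sum_apply, Pi.smul_apply,
      Function.comp, nu]
    refine sum_congr rfl fun c _ => ?_
    rw [← mul_assoc, mul_comm c.1, h c, mul_assoc, hf.pow_mul hq]

theorem Fam_dil (hf : QA q f) (hq : 2 ≤ q) (hI : WI q p f) {t : ℕ} (ht : 0 < t) {φ : ℕ → K}
    (h : φ ∈ Fam q p f) : (fun b => φ (t * b)) ∈ Fam q p f := by
  obtain ⟨μ, hμ, rfl⟩ := h
  obtain ⟨ρ, -, -, h1, h⟩ := exists_dil hf hq ht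
  refine ⟨_, fun c hc => ?_, (h μ).symm⟩
  obtain ⟨c', hc', rfl⟩ := mem_image.1 (Finsupp.mapDomain_support hc)
  obtain ⟨e, he⟩ := h1 c'
  exact (hI.cop.pow_right e).dvd_of_dvd_mul_left (he ▸ Dvd.dvd.mul_left (hμ hc') t)

theorem smul_ne (hI : WI q p f) {μ : {c : ℕ // ¬ q ∣ c} →₀ K}
    (hμ : μ ∈ Finsupp.supported K K {c | p ∣ c.1})
    (h0 : Finsupp.linearCombination K (nu q f) μ ≠ 0) : (p : K) • μ ≠ 0 := fun h => h0 (by
  funext b
  simp only [Finsupp.linearCombination_apply, Finsupp.sum, Finset.sum_apply, Pi.smul_apply, nu]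
  refine sum_eq_zero fun c hc => ?_
  obtain ⟨k, hk⟩ := hI.dvd (c.1 * b) (Dvd.dvd.mul_right (hμ hc) b)
  have h1 : (p : K) * μ c = 0 := DFunLike.congr_fun h c
  rw [hk, smul_eq_mul, ← mul_assoc, mul_comm (μ c), h1, zero_mul])

theorem dil_ne (hf : QA q f) (hq : 2 ≤ q) (hI : WI q p f) {t : ℕ}
    (ht : 0 < t) {φ : ℕ → K} (h : φ ∈ Fam q p f) (h0 : φ ≠ 0) : (fun b => φ (t * b)) ≠ 0 := by
  obtain ⟨μ, hμ, rfl⟩ := h
  obtain ⟨ρ, h1, -, -, h⟩ := exists_dil hf hq ht
  rw [h μ]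
  intro h2
  refine smul_ne hI hμ h0 (Finsupp.mapDomain_injective h1 ?_)
  rw [Finsupp.mapDomain_smul, hI.ind _ h2, Finsupp.mapDomain_zero]

theorem dil_dil_ne (hf : QA q f) (hq : 2 ≤ q) (hI : WI q p f) {k k' : ℕ}
    (hk : k < k') {φ : ℕ → K} (h : φ ∈ Fam q p f) (h0 : φ ≠ 0) :
    (fun b => φ ((q + 1) ^ k * b)) ≠ fun b => φ ((q + 1) ^ k' * b) := by
  obtain ⟨μ₀, hμ, rfl⟩ := h
  have co : ∀ k, ((q + 1) ^ k).Coprime q := fun k => Nat.Coprime.pow_left k (by simp)
  obtain ⟨ρ, -, h2, -, h3⟩ := exists_dil hf hq (Nat.pow_pos (n := k) q.succ_pos)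
  obtain ⟨ρ', h1', h2', -, h3'⟩ := exists_dil hf hq (Nat.pow_pos (n := k') q.succ_pos)
  rw [h3 μ₀, h3' μ₀]
  intro h4
  have h5 : ((p : K) • μ₀).mapDomain ρ = ((p : K) • μ₀).mapDomain ρ' := by
    rw [Finsupp.mapDomain_smul, Finsupp.mapDomain_smul, ← sub_eq_zero, ← smul_sub]
    exact hI.ind _ (by rw [map_sub, h4, sub_self])
  have h6 := smul_ne hI hμ h0
  generalize (p : K) • μ₀ = μ at h5 h6
  obtain ⟨c, hc, hmax⟩ := exists_max_image μ.support (fun c => c.1)
    (Finsupp.support_nonempty_iff.2 h6)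
  have h6 : ρ' c ∈ (μ.mapDomain ρ).support := by
    rw [h5, Finsupp.mem_support_iff, Finsupp.mapDomain_apply h1']
    exact Finsupp.mem_support_iff.1 hc
  obtain ⟨c', hc', h7⟩ := mem_image.1 (Finsupp.mapDomain_support h6)
  have h8 := congrArg Subtype.val h7
  rw [h2 (co k), h2' (co k')] at h8
  have h9 : (q + 1) ^ k < (q + 1) ^ k' := Nat.pow_lt_pow_right (by omega) hk
  have := Nat.mul_le_mul_left ((q + 1) ^ k) (hmax c' hc')
  have := Nat.mul_lt_mul_of_lt_of_le h9 le_rfl (nm_pos c)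
  simp only [Nat.succ_eq_add_one] at *
  omega

theorem Fam_f (hf : QA q f) (hq : 2 ≤ q) (hI : WI q p f) {c : ℕ} (hc : p ∣ c) :
    (fun b => f (b * c)) ∈ Fam q p f := by
  rcases Nat.eq_zero_or_pos c with rfl | h
  · simp only [mul_zero, hf.zero]
    exact zero_mem _
  · obtain ⟨r, e, rfl⟩ := exists_rep hq h
    refine ⟨Finsupp.single r 1, Finsupp.single_mem_supported K 1
      ((hI.cop.pow_right e).dvd_of_dvd_mul_left hc), ?_⟩
    funext b
    rw [Finsupp.linearCombination_single, one_smul, nu, mul_comm b, mul_assoc, hf.pow_mul hq]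

theorem base_ne (hf : QA q f) (hq : 2 ≤ q) (hI : WI q p f) {ι : Type}
    [Fintype ι] (c : ι → ℕ) (hc : ∀ i, 0 < c i)
    (hd : ∀ i j u v, q ^ u * c i = q ^ v * c j → i = j) {lam : ι → K} (h0 : (p : K) • lam ≠ 0) :
    (fun b => ∑ i, lam i * f (b * c i)) ≠ 0 := by
  choose r e h using fun i => exists_rep hq (hc i)
  have h1 : Function.Injective r :=
    fun i j hij => hd i j (e j) (e i) (by rw [h i, h j, hij]; ring)
  intro h2
  have h3 := hI.ind ((Finsupp.equivFunOnFinite.symm lam).mapDomain r) (by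
    rw [Finsupp.linearCombination_mapDomain, Finsupp.linearCombination_apply,
      Finsupp.sum_fintype _ _ (by simp), ← h2]
    funext b
    rw [Finset.sum_apply]
    refine sum_congr rfl fun i _ => ?_
    rw [h i, mul_comm b, mul_assoc, hf.pow_mul hq]
    rfl)
  refine h0 (funext fun i => ?_)
  have h4 := DFunLike.congr_fun h3 (r i)
  rwa [Finsupp.smul_apply, Finsupp.mapDomain_apply h1] at h4

end Fam

theorem sum_shift {α : Type} [Fintype α] (e : α ≃ α) (F : α → ℂ) {c : ℂ} (hc : c ≠ 1)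
    (h : ∀ a, F (e a) = c * F a) : ∑ a, F a = 0 := by
  have h1 := e.sum_comp F
  simp only [h, ← mul_sum] at h1
  exact (mul_left_eq_self₀.1 h1).resolve_left hc

/-- the inequality of van der Corput -/
theorem vdc {α : Type} [Fintype α] (S : ℕ) (z : ℕ → α → ℂ) (hz : ∀ k a, ‖z k a‖ = 1) (T : ℂ)
    (hT : ∀ k, k < S → ∑ a, z k a = T) {ε : ℝ} (hε : 0 ≤ ε)
    (h : ∀ k, k < S → ∀ k', k' < S → k ≠ k' →
      ‖∑ a, z k a * (starRingEnd ℂ) (z k' a)‖ ≤ ε * Fintype.card α) :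
    (S * ‖T‖) ^ 2 ≤ (Fintype.card α : ℝ) ^ 2 * (S + S ^ 2 * ε) := by
  have h1 : (S : ℝ) * ‖T‖ ≤ ∑ a, ‖∑ k ∈ range S, z k a‖ := by
    refine le_trans (le_of_eq ?_) (norm_sum_le _ _)
    rw [sum_comm, sum_congr rfl fun k hk => hT k (mem_range.1 hk)]
    simp
  have h2 := sq_sum_le_card_mul_sum_sq (s := (univ : Finset α))
    (f := fun a => ‖∑ k ∈ range S, z k a‖)
  have h3 : ((∑ a, ‖∑ k ∈ range S, z k a‖ ^ 2 : ℝ) : ℂ) =
      ∑ k ∈ range S, ∑ k' ∈ range S, ∑ a, z k a * (starRingEnd ℂ) (z k' a) := by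
    push_cast
    simp only [← Complex.mul_conj', map_sum, sum_mul_sum]
    rw [sum_comm]
    exact sum_congr rfl fun k _ => sum_comm
  have h4 : ∀ k ∈ range S, ‖∑ k' ∈ range S, ∑ a, z k a * (starRingEnd ℂ) (z k' a)‖ ≤
      Fintype.card α * (1 + S * ε) := by
    intro k hk
    refine (norm_sum_le _ _).trans ((sum_le_sum (g := fun k' =>
      (if k = k' then (Fintype.card α : ℝ) else 0) + ε * Fintype.card α) fun k' hk' => ?_).trans ?_)
    · have p : 0 ≤ ε * Fintype.card α := by positivity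
      split_ifs with e
      · refine (norm_sum_le _ _).trans ?_
        simp [hz, p]
      · rw [zero_add]
        exact h k (mem_range.1 hk) k' (mem_range.1 hk') e
    · rw [sum_add_distrib, sum_ite_eq, if_pos hk, sum_const, card_range, nsmul_eq_mul]
      exact le_of_eq (by ring)
  have h5 : ∑ a, ‖∑ k ∈ range S, z k a‖ ^ 2 ≤ S * (Fintype.card α * (1 + S * ε)) := by
    refine (le_abs_self _).trans ?_
    rw [← Real.norm_eq_abs, ← Complex.norm_real, h3]
    refine (norm_sum_le _ _).trans ((sum_le_sum h4).trans ?_)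
    simp
  calc (S * ‖T‖) ^ 2 ≤ (∑ a, ‖∑ k ∈ range S, z k a‖) ^ 2 :=
        pow_le_pow_left₀ (by positivity) h1 2
    _ ≤ Fintype.card α * (S * (Fintype.card α * (1 + S * ε))) :=
        h2.trans (mul_le_mul_of_nonneg_left h5 (Nat.cast_nonneg _))
    _ = _ := by ring

section Grp

variable {K : Type} [CommRing K] {d R : ℕ} [NeZero R]

/-- the elements of the group of shifts -/
noncomputable def gam (K : Type) [CommRing K] (d : ℕ) {R N : ℕ} (a : Fin N → ZMod R) : A K :=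
  ∏ b, E K d b.1 ^ (a b).val

omit [NeZero R] in
theorem gam_mem {N : ℕ} (a : Fin N → ZMod R) :
    gam K d a ∈ Submonoid.closure (Set.range (E K d)) :=
  prod_mem fun _ _ => pow_mem (Submonoid.subset_closure (Set.mem_range_self _)) _

omit [NeZero R] in
theorem gam_sub (hd : 1 ≤ d) {N : ℕ} (a : Fin N → ZMod R) : gam K d a - 1 ∈ I K 1 :=
  prod_induction _ (fun x => x - 1 ∈ I K 1) (fun _ _ => mul_sub_one) (by simp)
    fun _ _ => pow_sub_one (E_sub_one hd _) _

theorem gam_add {l : A K →ₗ[K] K} (hR : ∀ b y, l (E K d b ^ R * y) = l y) {N : ℕ} (b : Fin N)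
    (a : Fin N → ZMod R) (y : A K) :
    l (gam K d (a + Pi.single b 1) * y) = l (gam K d a * (E K d b.1 * y)) := by
  have h1 : ∀ k z, l (E K d b.1 ^ (R * k) * z) = l z := fun k => by
    induction k with
    | zero => simp
    | succ k ih => intro z; rw [mul_add, mul_one, pow_add, mul_assoc, ih, hR]
  have h2 : ∀ k z, l (E K d b.1 ^ (k % R) * z) = l (E K d b.1 ^ k * z) := fun k z => by
    conv_rhs => rw [← Nat.div_add_mod k R, pow_add, mul_assoc, h1]
  have h3 : (a b + 1).val = ((a b).val + 1) % R := by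
    conv_lhs => rw [← ZMod.natCast_zmod_val (a b), ← Nat.cast_add_one, ZMod.val_natCast]
  unfold gam
  rw [← mul_prod_erase _ _ (mem_univ b), ← mul_prod_erase univ _ (mem_univ b), Pi.add_apply,
    Pi.single_eq_same, h3, mul_assoc, h2, prod_congr rfl fun c hc => by
      rw [Pi.add_apply, Pi.single_eq_of_ne (ne_of_mem_erase hc), add_zero]]
  congr 1
  ring

/-- the character sums tend to zero -/
def Zr (d R : ℕ) [NeZero R] (ψ : AddChar K ℂ) (l : A K →ₗ[K] K) (y : A K) : Prop :=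
  ∀ ε : ℝ, 0 < ε → ∀ᶠ N : ℕ in atTop,
    ‖∑ a : Fin N → ZMod R, ψ (l (gam K d a * y))‖ ≤ ε * Fintype.card (Fin N → ZMod R)

variable [Finite K] {q p : ℕ} {f : ℕ → K}

theorem bias (hf : QA q f) (hq : 2 ≤ q) (hI : WI q p f) (hd : 1 ≤ d)
    {ψ : AddChar K ℂ} (hψ : ∀ x, ψ x = 1 → x = 0) {l : A K →ₗ[K] K}
    (hR : ∀ b y, l (E K d b ^ R * y) = l y) (j : ℕ) (y : A K)
    (h1 : ∀ z ∈ I K (j + 2), l (z * y) = 0)
    (h2 : (fun b => l (sg ⟨j + 1, (j + 1).factorial * b⟩ * y)) ∈ Fam q p f)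
    (h3 : (fun b => l (sg ⟨j + 1, (j + 1).factorial * b⟩ * y)) ≠ 0) : Zr d R ψ l y := by
  induction j generalizing y with
  | zero =>
    obtain ⟨b, hb⟩ := Function.ne_iff.1 h3
    intro ε hε
    filter_upwards [eventually_gt_atTop b] with N hN
    rw [sum_shift (Equiv.addRight (Pi.single (⟨b, hN⟩ : Fin N) (1 : ZMod R))) _
      (fun h => hb (hψ _ h)) fun a => ?_, norm_zero]
    · positivity
    · rw [Equiv.coe_addRight, gam_add hR, ← AddChar.map_add_eq_mul, ← map_add]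
      congr 1
      have h0 : (gam K d a - 1) * (E K d b - 1) ∈ I K 2 :=
        mul_mem_I (n := 1) (k := 1) (gam_sub hd a) (E_sub_one hd b)
      rw [← sub_eq_zero, ← map_sub, ← h1 _ (add_mem h0 (E_sub hd b))]
      congr 1
      simp only [zero_add, Nat.factorial_one, one_mul]
      ring
  | succ j ih =>
    have key : ∀ k k', k ≠ k' → Zr d R ψ l ((E K d ((q + 1) ^ k) - E K d ((q + 1) ^ k')) * y) := by
      intro k k' hk
      have a1 : E K d ((q + 1) ^ k) - E K d ((q + 1) ^ k') ∈ I K 1 := by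
        have := sub_mem (E_sub_one (K := K) hd ((q + 1) ^ k)) (E_sub_one hd ((q + 1) ^ k'))
        rwa [sub_sub_sub_cancel_right] at this
      have a2 : ∀ t b, l (sg ⟨j + 1, (j + 1).factorial * b⟩ * (E K d t - 1) * y) =
          l (sg ⟨j + 1 + 1, (j + 1 + 1).factorial * (t * b)⟩ * y) := by
        intro t b
        have e : (⟨j + 1 + 1, (j + 1 + 1).factorial * (t * b)⟩ : M) =
            ⟨j + 1, (j + 1).factorial * b⟩ * ⟨1, t⟩ := by
          ext
          · rfl
          · rw [mul_b, Nat.choose_one_right, Nat.factorial_succ (j + 1)]; ring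
        rw [← sub_eq_zero, ← map_sub,
          ← h1 _ (mul_mem_I (sg_I ⟨j + 1, (j + 1).factorial * b⟩ le_rfl) (E_sub hd t)), e, ← sg_mul]
        congr 1
        ring
      have a3 : (fun b => l (sg ⟨j + 1, (j + 1).factorial * b⟩ *
          ((E K d ((q + 1) ^ k) - E K d ((q + 1) ^ k')) * y))) =
          (fun b => l (sg ⟨j + 1 + 1, (j + 1 + 1).factorial * ((q + 1) ^ k * b)⟩ * y)) -
          fun b => l (sg ⟨j + 1 + 1, (j + 1 + 1).factorial * ((q + 1) ^ k' * b)⟩ * y) := by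
        funext b
        rw [Pi.sub_apply, ← a2, ← a2, ← map_sub]
        congr 1
        ring
      refine ih _ (fun z hz => ?_) ?_ ?_
      · rw [← mul_assoc]; exact h1 _ (mul_mem_I (n := j + 2) (k := 1) hz a1)
      · rw [a3]
        exact sub_mem (Fam_dil hf hq hI (Nat.pow_pos q.succ_pos) h2)
          (Fam_dil hf hq hI (Nat.pow_pos q.succ_pos) h2)
      · rw [a3, sub_ne_zero]
        rcases lt_or_gt_of_ne hk with h | h
        · exact dil_dil_ne hf hq hI h h2 h3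
        · exact (dil_dil_ne hf hq hI h h2 h3).symm
    intro ε hε
    obtain ⟨S, hS⟩ := exists_nat_gt (2 / ε ^ 2)
    have S0 : (0 : ℝ) < S := lt_trans (by positivity) hS
    have ev : ∀ᶠ N : ℕ in atTop, ∀ k ∈ range S, ∀ k' ∈ range S, k ≠ k' →
        ‖∑ a : Fin N → ZMod R, ψ (l (gam K d a *
          ((E K d ((q + 1) ^ k) - E K d ((q + 1) ^ k')) * y)))‖ ≤
          ε ^ 2 / 2 * Fintype.card (Fin N → ZMod R) :=
      (eventually_all_finset _).2 fun k _ => (eventually_all_finset _).2 fun k' _ => by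
        by_cases hk : k = k'
        · exact Eventually.of_forall fun _ h => absurd hk h
        · exact (key k k' hk _ (by positivity)).mono fun _ h _ => h
    filter_upwards [ev, eventually_gt_atTop ((q + 1) ^ S)] with N h4 hN
    have h5 := vdc S (fun k (a : Fin N → ZMod R) => ψ (l (gam K d a * (E K d ((q + 1) ^ k) * y))))
      (fun _ _ => ψ.norm_apply _) (∑ a : Fin N → ZMod R, ψ (l (gam K d a * y)))
      (fun k hk => by
        have hb : (q + 1) ^ k < N := lt_trans (Nat.pow_lt_pow_right (by omega) hk) hN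
        refine Eq.trans ?_ (Equiv.sum_comp (Equiv.addRight (G := Fin N → ZMod R)
          (Pi.single (⟨_, hb⟩ : Fin N) (1 : ZMod R))) fun a => ψ (l (gam K d a * y)))
        exact sum_congr rfl fun a _ => by rw [Equiv.coe_addRight, gam_add hR])
      (ε := ε ^ 2 / 2) (by positivity) fun k hk k' hk' hne => by
        refine le_trans (le_of_eq ?_) (h4 k (mem_range.2 hk) k' (mem_range.2 hk') hne)
        congr 1
        refine sum_congr rfl fun a _ => ?_
        rw [← AddChar.map_neg_eq_conj, ← AddChar.map_add_eq_mul, ← map_neg, ← map_add]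
        congr 2
        ring
    refine le_of_mul_le_mul_left (le_of_sq_le_sq (h5.trans ?_) (by positivity)) S0
    rw [div_lt_iff₀ (by positivity)] at hS
    have : (S : ℝ) + S ^ 2 * (ε ^ 2 / 2) ≤ S ^ 2 * ε ^ 2 := by nlinarith
    calc _ ≤ (Fintype.card (Fin N → ZMod R) : ℝ) ^ 2 * (S ^ 2 * ε ^ 2) :=
          mul_le_mul_of_nonneg_left this (by positivity)
      _ = _ := by ring

end Grp

end Pool.Agent.MP_b1aeef_nt.H78
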