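import Pool.Agent.MP_b1aeef_nt.H78.Bias

/-! Joint surjectivity and the power count for polynomials over the naturals. -/

set_option autoImplicit false

open Finset Polynomial Filter

namespace Pool.Agent.MP_b1aeef_nt.H78

open H82 (M mul_m mul_b one_m one_b)

theorem orth {K ι : Type} [CommRing K] [Fintype K] [Fintype ι] [DecidableEq ι] {ψ : AddChar K ℂ}
    (hψ : ∀ x, ψ x = 1 → x = 0) {w : ι → K} (hw : w ≠ 0) :
    ∑ lam : ι → K, ψ (∑ i, lam i * w i) = 0 := by
  obtain ⟨i, hi⟩ := Function.ne_iff.1 hw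
  refine sum_shift (Equiv.addRight (G := ι → K) (Pi.single i 1)) _ (fun h => hi (hψ _ h))
    fun a => ?_
  rw [← AddChar.map_add_eq_mul, Equiv.coe_addRight]
  congr 1
  simp only [Pi.add_apply, add_mul, sum_add_distrib, Pi.single_apply, ite_mul, one_mul, zero_mul,
    sum_ite_eq', mem_univ, if_true]
  ring

variable {m : ℕ} [NeZero m] {q p : ℕ} {f : ℕ → ZMod m}

omit [NeZero m] in
theorem period (hf : QA q f) {d : ℕ} (hd : 1 ≤ d) {Q : ℕ[X]} (hQ : Q.natDegree ≤ d) (b : ℕ)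
    (y : A (ZMod m)) : tau f Q (E (ZMod m) d b ^ m ^ d * y) = tau f Q y := by
  have h0 := mul_mem_I (pow_pow_sub_one (ZMod.natCast_self m) (E_sub_one hd b) d) (mem_I_zero y)
  rw [← sub_eq_zero, ← map_sub, ← tau_I hf hQ h0, sub_mul, one_mul]

theorem small (hf : QA q f) (hq : 2 ≤ q) (hI : WI q p f) {ι : Type}
    [Fintype ι] {d : ℕ} (hd : 1 ≤ d) (Q : ι → ℕ[X]) (hQ : ∀ i, (Q i).natDegree ≤ d)
    (hc : ∀ i, 0 < (Q i).coeff 1) (hp : ∀ i n, p ∣ (Q i).coeff (n + 1))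
    (hu : ∀ i j u v, q ^ u * (Q i).coeff 1 = q ^ v * (Q j).coeff 1 → i = j)
    {ψ : AddChar (ZMod m) ℂ} (hψ : ∀ x, ψ x = 1 → x = 0) {lam : ι → ZMod m}
    (h0 : (p : ZMod m) • lam ≠ 0) :
    Zr d (m ^ d) ψ (∑ i, lam i • tau f (Q i)) 1 := by
  classical
  obtain ⟨l, hl⟩ : ∃ l, l = ∑ i, lam i • tau f (Q i) := ⟨_, rfl⟩
  have l1 : ∀ a, l a = ∑ i, lam i * tau f (Q i) a := fun a => by
    rw [hl, LinearMap.sum_apply]; rfl
  have l2 : ∀ n, (fun b => l (sg ⟨n, b⟩)) = fun b => ∑ i, lam i * f (b * (Q i).coeff n) :=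
    fun n => funext fun b => by simp only [l1, tau_sg]
  have l3 : ∀ n, (fun b => l (sg ⟨n + 1, b⟩)) ∈ Fam q p f := fun n => by
    have := Submodule.sum_mem (Fam q p f) fun i (_ : i ∈ univ) =>
      Submodule.smul_mem _ (lam i) (Fam_f hf hq hI (hp i n))
    rw [l2]
    convert this using 1
    funext b
    rw [Finset.sum_apply]
    rfl
  have l4 : (fun b => l (sg ⟨1, b⟩)) ≠ 0 := by rw [l2]; exact base_ne hf hq hI _ hc hu h0
  have n1 := Nat.le_findGreatest (P := fun n => (fun b => l (sg ⟨n, b⟩)) ≠ 0) hd l4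
  have n2 := Nat.findGreatest_spec (P := fun n => (fun b => l (sg ⟨n, b⟩)) ≠ 0) hd l4
  have n3 := fun k => Nat.findGreatest_is_greatest (k := k) (n := d)
    (P := fun n => (fun b => l (sg ⟨n, b⟩)) ≠ 0)
  generalize Nat.findGreatest (fun n => (fun b => l (sg ⟨n, b⟩)) ≠ 0) d = n at n1 n2 n3
  obtain ⟨j, rfl⟩ : ∃ j, n = j + 1 := ⟨n - 1, by omega⟩
  rw [← hl]
  refine bias hf hq hI hd hψ (fun b y => ?_) j 1 (fun z hz => ?_) ?_ ?_
  · simp only [l1, period hf hd (hQ _)]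
  · rw [mul_one]
    refine Sp_ext (ψ := 0) (fun g hg => ?_) hz
    by_cases h : g.m ≤ d
    · exact congrFun (not_not.1 (n3 g.m hg h)) g.b
    · simp only [l1, tau_I hf (hQ _) (sg_I g (not_le.1 h)), mul_zero, sum_const_zero]
      rfl
  · simp only [mul_one]
    exact Fam_dil hf hq hI (Nat.factorial_pos _) (l3 _)
  · simp only [mul_one]
    exact dil_ne hf hq hI (Nat.factorial_pos _) (l3 _) n2

theorem surj (hf : QA q f) (hq : 2 ≤ q) (hI : WI q p f) {ι : Type}
    [Fintype ι] {d : ℕ} (hd : 1 ≤ d) (Q : ι → ℕ[X]) (hQ : ∀ i, (Q i).natDegree ≤ d)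
    (hc : ∀ i, 0 < (Q i).coeff 1) (hp : ∀ i n, p ∣ (Q i).coeff (n + 1))
    (hu : ∀ i j u v, q ^ u * (Q i).coeff 1 = q ^ v * (Q j).coeff 1 → i = j) (g : ι → ZMod m)
    (hg : ∀ i y, ∃ k, f ((Q i).eval y) - g i = p * k) : ∃ y : ℕ, ∀ i, f ((Q i).eval y) = g i := by
  classical
  have hψ : ∀ x, ZMod.stdAddChar (N := m) x = 1 → x = 0 := fun x h =>
    ZMod.injective_stdAddChar (h.trans (AddChar.map_zero_eq_one _).symm)
  generalize ZMod.stdAddChar (N := m) = ψ at hψ
  obtain ⟨c, hc'⟩ : ∃ c : ℝ, c = Fintype.card (ι → ZMod m) := ⟨_, rfl⟩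
  have c0 : 0 < c := by rw [hc']; exact_mod_cast Fintype.card_pos
  have ev : ∀ᶠ N : ℕ in atTop, ∀ lam : ι → ZMod m, (p : ZMod m) • lam ≠ 0 →
      ‖∑ a : Fin N → ZMod (m ^ d), ψ ((∑ i, lam i • tau f (Q i)) (gam _ d a * 1))‖ ≤
        1 / (2 * c) * Fintype.card (Fin N → ZMod (m ^ d)) :=
    eventually_all.2 fun lam => by
      by_cases h0 : (p : ZMod m) • lam = 0
      · exact Eventually.of_forall fun _ h => absurd h0 h
      · exact (small hf hq hI hd Q hQ hc hp hu hψ h0 _ (by positivity)).mono fun _ h _ => h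
  obtain ⟨N, hN⟩ := ev.exists
  have re : ∀ a : Fin N → ZMod (m ^ d), ∃ y, ∀ i, f ((Q i).eval y) = tau f (Q i) (gam _ d a) :=
    fun a => (reach hf hq Q hQ (gam_mem (K := ZMod m) (d := d) a) 1).imp fun y hy i => by
      rw [← mul_one (gam _ d a), ← hy, tau_one, taylor_coeff_zero]
  choose y hy using re
  by_contra hne
  obtain ⟨T, hT⟩ : ∃ T : ℝ, T = Fintype.card (Fin N → ZMod (m ^ d)) := ⟨_, rfl⟩
  have T0 : 0 < T := by rw [hT]; exact_mod_cast Fintype.card_pos
  have h1 : ∑ lam : ι → ZMod m, ∑ a : Fin N → ZMod (m ^ d),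
      ψ (∑ i, lam i * (tau f (Q i) (gam _ d a) - g i)) = 0 := by
    rw [sum_comm]
    exact sum_eq_zero fun a _ => orth hψ fun h =>
      hne ⟨y a, fun i => (hy a i).trans (sub_eq_zero.1 (congrFun h i))⟩
  rw [← sum_filter_add_sum_filter_not _ (fun lam => (p : ZMod m) • lam = 0),
    add_eq_zero_iff_eq_neg, sum_congr rfl (g := fun _ => (T : ℂ)) fun lam hl => by
      rw [sum_congr rfl (g := fun _ => 1) fun a _ => by
        rw [sum_eq_zero, AddChar.map_zero_eq_one]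
        intro i _
        obtain ⟨k, hk⟩ := hg i (y a)
        have h2 : (p : ZMod m) * lam i = 0 := congrFun (mem_filter.1 hl).2 i
        rw [← hy, hk, ← mul_assoc, mul_comm (lam i), h2, zero_mul]]
      simp [hT]] at h1
  have h2 := congrArg norm h1
  rw [sum_const, nsmul_eq_mul, norm_mul, norm_neg, Complex.norm_natCast, Complex.norm_real,
    Real.norm_of_nonneg T0.le] at h2
  have h3 : ∀ lam ∈ (univ : Finset (ι → ZMod m)).filter fun lam => ¬ (p : ZMod m) • lam = 0,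
      ‖∑ a : Fin N → ZMod (m ^ d), ψ (∑ i, lam i * (tau f (Q i) (gam _ d a) - g i))‖ ≤
        1 / (2 * c) * T := by
    intro lam hl
    refine le_trans (le_of_eq ?_) (hT ▸ hN lam (mem_filter.1 hl).2)
    simp only [mul_sub, sum_sub_distrib, AddChar.map_sub_eq_div, ← sum_div, norm_div,
      ψ.norm_apply, div_one, mul_one, LinearMap.sum_apply, LinearMap.smul_apply, smul_eq_mul]
  have h4 := (norm_sum_le _ _).trans (sum_le_card_nsmul _ _ _ h3)
  rw [← h2, nsmul_eq_mul] at h4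
  have h5 : (((univ : Finset (ι → ZMod m)).filter fun lam => ¬ (p : ZMod m) • lam = 0).card : ℝ)
      ≤ c := by rw [hc']; exact_mod_cast card_le_univ _
  have h6 := mul_le_mul_of_nonneg_right h5 (show 0 ≤ 1 / (2 * c) * T by positivity)
  have h7 : c * (1 / (2 * c) * T) = T / 2 := by field_simp
  have h8 : (1 : ℝ) ≤ ((univ : Finset (ι → ZMod m)).filter
      fun lam => (p : ZMod m) • lam = 0).card := by
    exact Nat.one_le_cast.2 (card_pos.2 ⟨0, by simp⟩)
  have h9 := mul_le_mul_of_nonneg_right h8 T0.le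
  linarith

/-- one solution gives many -/
theorem many (d m : ℕ) (hd : 1 ≤ d) (hm : 1 ≤ m) : ∃ e : ℕ, ∀ (q : ℕ) (f : ℕ → ZMod m), QA q f →
    2 ≤ q → ∀ {ι : Type} [Fintype ι] (Q : ι → ℕ[X]), (∀ i, (Q i).natDegree ≤ d) → ∀ y : ℕ,
      ∀ᶠ Z : ℕ in atTop, ∃ G, 0 < G ∧ G ≤ Z ^ e ∧ ∀ b, b ≤ Z → ∀ i,
        f ((Q i).eval (b * G + y)) = f ((Q i).eval y) := by
  obtain ⟨e, he⟩ := rep d (m ^ d) 0
  refine ⟨e, fun q f hf hq ι _ Q hQ y => ?_⟩
  filter_upwards [eventually_ge_atTop q, eventually_ge_atTop (∑ i, (taylor y (Q i)).eval 1)]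
    with Z h1 h2
  obtain ⟨G, g1, g2, g3⟩ := he _ q f hf hq Z h1
  refine ⟨G, lt_of_lt_of_le (Nat.pow_pos hm) g1, g2, fun b hb i => ?_⟩
  have h3 : (taylor y (Q i)).natDegree ≤ d := by rw [natDegree_taylor]; exact hQ i
  have := g3 _ h3 ((single_le_sum (f := fun i => (taylor y (Q i)).eval 1)
    (fun _ _ => Nat.zero_le _) (mem_univ i)).trans h2) b hb 1 (sg_mem (g := 1) (Or.inr (by simp)))
  rwa [period hf hd h3, tau_one, tau_one, taylor_taylor, taylor_coeff_zero, taylor_coeff_zero]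
    at this

/-- a shift after which the linear coefficients are inequivalent -/
theorem generic (hq : 2 ≤ q) {ι : Type} [Fintype ι] (Q : ι → ℕ[X]) (hc : ∀ i, 0 < (Q i).coeff 1)
    (hu : ∀ i j u, (∀ n, q ^ u * (Q i).coeff (n + 1) = (Q j).coeff (n + 1)) → i = j)
    {p : ℕ} (hp : 0 < p) : ∃ y, (∀ i, 0 < (taylor (p * y) (Q i)).coeff 1) ∧ ∀ i j u v,
      q ^ u * (taylor (p * y) (Q i)).coeff 1 = q ^ v * (taylor (p * y) (Q j)).coeff 1 → i = j := by
  obtain ⟨L, hL⟩ : ∃ L, L = ∑ i, (Q i).coeff 1 := ⟨_, rfl⟩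
  have h1 : ∀ i, (Q i).coeff 1 < q ^ L := fun i => lt_of_le_of_lt (single_le_sum
    (f := fun i => (Q i).coeff 1) (fun _ _ => Nat.zero_le _) (mem_univ i))
    (hL ▸ Nat.lt_pow_self (by omega))
  have h2 : ∀ i t, ¬ q ^ L ∣ (taylor (p * (q ^ L * t)) (Q i)).coeff 1 := fun i t h => by
    rw [taylor_coeff_one, ← X_mul_divX_add (derivative (Q i)), eval_add, eval_mul, eval_X, eval_C,
      coeff_derivative, mul_left_comm, mul_assoc, Nat.dvd_add_right (dvd_mul_right _ _)] at h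
    have := Nat.le_of_dvd (by simpa using hc i) h
    have := h1 i
    simp at *
    omega
  have t1 : Tendsto (fun t : ℕ => ((p * (q ^ L * t) : ℕ) : ℚ)) atTop atTop :=
    tendsto_natCast_atTop_atTop.comp (tendsto_atTop_mono (fun t => (Nat.le_mul_of_pos_left t
      (Nat.pow_pos (by omega))).trans (Nat.le_mul_of_pos_left _ hp)) tendsto_id)
  have ev : ∀ᶠ t : ℕ in atTop, ∀ i j, ∀ u ∈ range L, q ^ u * (taylor (p * (q ^ L * t)) (Q i)).coeff 1
      = (taylor (p * (q ^ L * t)) (Q j)).coeff 1 → i = j :=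
    eventually_all.2 fun i => eventually_all.2 fun j => (eventually_all_finset _).2 fun u _ => by
      by_cases hij : i = j
      · exact Eventually.of_forall fun _ _ => hij
      have hne : (C (q ^ u) * derivative (Q i)).map (Nat.castRingHom ℚ) -
          (derivative (Q j)).map (Nat.castRingHom ℚ) ≠ 0 := fun h => hij (hu i j u fun n => by
        have := congrArg (coeff · n) (map_injective _ Nat.cast_injective (sub_eq_zero.1 h))
        simp only [coeff_C_mul, coeff_derivative, ← mul_assoc] at this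
        exact Nat.eq_of_mul_eq_mul_right (by simp) this)
      filter_upwards [t1.eventually (eventually_atTop_not_isRoot _ hne)] with t ht h
      refine absurd ?_ ht
      rw [taylor_coeff_one, taylor_coeff_one] at h
      rw [IsRoot, eval_sub, eval_natCast_map, eval_natCast_map, eval_mul, eval_C, sub_eq_zero]
      exact congrArg _ h
  obtain ⟨t, ht⟩ := ev.exists
  have h3 : ∀ i j u, q ^ u * (taylor (p * (q ^ L * t)) (Q i)).coeff 1
      = (taylor (p * (q ^ L * t)) (Q j)).coeff 1 → i = j := fun i j u h =>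
    ht i j u (mem_range.2 (not_le.1 fun h4 => h2 j t (h ▸ (pow_dvd_pow q h4).mul_right _))) h
  refine ⟨q ^ L * t, fun i => Nat.pos_of_ne_zero fun h => h2 i t (h ▸ dvd_zero _),
    fun i j u v h => ?_⟩
  rcases le_total u v with h4 | h4 <;> obtain ⟨w, rfl⟩ := Nat.exists_eq_add_of_le h4 <;>
    rw [pow_add, mul_assoc, Nat.mul_right_inj (Nat.pow_pos (by omega)).ne'] at h
  · exact (h3 j i w h.symm).symm
  · exact h3 i j w h

end Pool.Agent.MP_b1aeef_nt.H78
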