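import Pool.Agent.MP_b1aeef_nt.H78.Core
import Pool.Agent.MP_b1aeef_nt.H82.Final

/-! Reduction of families of integer valued polynomials to the core theorem. -/

set_option autoImplicit false

open Finset Polynomial Filter

namespace Pool.Agent.MP_b1aeef_nt.H78

theorem lead_pos (P : ℚ[X]) (h1 : 1 ≤ P.natDegree) (a : ℕ → ℕ)
    (ha : ∀ n : ℕ, (a n : ℚ) = P.eval (n : ℚ)) : 0 < P.coeff P.natDegree := by
  rcases lt_trichotomy 0 (P.coeff P.natDegree) with h | h | h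
  · exact h
  · exact absurd h.symm (leadingCoeff_ne_zero.2 (by rintro rfl; simp at h1))
  · obtain ⟨x, hx⟩ := (H82.ev_pos (-P) P.natDegree (by rw [natDegree_neg])
      (by rw [coeff_neg]; linarith)).exists
    rw [eval_neg, ← ha] at hx
    have : (0 : ℚ) ≤ a x := by positivity
    linarith

theorem poly_modEq (P : ℚ[X]) (a : ℕ → ℕ) (ha : ∀ n : ℕ, (a n : ℚ) = P.eval (n : ℚ)) (D : ℕ)
    (hD0 : 0 < D) (hD : ∀ m, ∃ z : ℤ, (D : ℚ) * P.coeff m = z) (T n y : ℕ) :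
    a (n + D * (T * y)) ≡ a n [MOD T] := by
  choose z hz using hD
  have h1 : ∀ x : ℕ, (D : ℤ) * a x = ∑ m ∈ range (P.natDegree + 1), z m * (x : ℤ) ^ m := by
    intro x
    apply Int.cast_injective (α := ℚ)
    push_cast
    rw [ha, eval_eq_sum_range, mul_sum]
    exact sum_congr rfl fun m _ => by rw [← hz, mul_assoc]
  have h2 : ((D : ℤ) * T) ∣ (D : ℤ) * ((a (n + D * (T * y)) : ℤ) - a n) := by
    rw [mul_sub, h1, h1, ← sum_sub_distrib]
    refine dvd_sum fun m _ => ?_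
    rw [← mul_sub]
    refine Dvd.dvd.mul_left (dvd_trans ⟨(y : ℤ), ?_⟩ (sub_dvd_pow_sub_pow _ _ m)) _
    push_cast
    ring
  have h3 := (mul_dvd_mul_iff_left (show (D : ℤ) ≠ 0 by exact_mod_cast hD0.ne')).1 h2
  exact (Nat.modEq_iff_dvd.2 h3).symm

variable {q : ℕ}

theorem QA_sd (hq : 2 ≤ q) (K : Type) [CommRing K] : QA q fun n => (sd q n : K) :=
  fun L a c h => by simp only [sd_add_pow hq L a c h, Nat.cast_add]

theorem WI_sd (hq : 2 ≤ q) (K : Type) [CommRing K] : WI q (q - 1) fun n => (sd q n : K) where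
  ind μ h := by
    ext c
    by_cases hc : c ∈ μ.support
    · refine indep hq μ.support μ (fun b => ?_) c hc
      have := congrFun h b
      rwa [Finsupp.linearCombination_apply, Finsupp.sum, Finset.sum_apply] at this
    · simp [Finsupp.notMem_support_iff.1 hc]
  dvd n h := by
    obtain ⟨k, hk⟩ := ((sd_modEq hq n).dvd_iff dvd_rfl).2 h
    exact ⟨k, by simp only [hk, Nat.cast_mul]⟩
  cop := by
    obtain ⟨p, rfl⟩ : ∃ p, q = p + 1 := ⟨q - 1, by omega⟩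
    simp

/-- passage to polynomials over the naturals -/
theorem to_nat (hq : 2 ≤ q) {ι : Type} [Fintype ι] {d : ℕ} (H : ι → ℚ[X]) (a : ι → ℕ → ℕ)
    (ha : ∀ i (n : ℕ), (a i n : ℚ) = (H i).eval (n : ℚ))
    (hd : ∀ i, 1 ≤ (H i).natDegree ∧ (H i).natDegree ≤ d)
    (hu : ∀ i j, i ≠ j → ∀ u : ℕ, 1 ≤ (C ((q : ℚ) ^ u) * H i - H j).natDegree) (n₀ : ℕ) :
    ∃ (x D : ℕ) (Q : ι → ℕ[X]), 0 < D ∧ (∀ i, (Q i).natDegree ≤ d) ∧ (∀ i, 0 < (Q i).coeff 1) ∧
      (∀ i n, q - 1 ∣ (Q i).coeff (n + 1)) ∧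
      (∀ i j u v, q ^ u * (Q i).coeff 1 = q ^ v * (Q j).coeff 1 → i = j) ∧
      (∀ i y, (Q i).eval y = a i (x + D * y)) ∧ ∀ i y, (Q i).eval y ≡ a i n₀ [MOD q - 1] := by
  classical
  choose D₀ hD₀ hD₁ using fun i => H82.exists_den (H i)
  obtain ⟨D, D0, hD⟩ : ∃ D : ℕ, 0 < D ∧ ∀ i m, ∃ z : ℤ, (D : ℚ) * (H i).coeff m = z := by
    refine ⟨∏ i, D₀ i, prod_pos fun i _ => hD₀ i, fun i m => ?_⟩
    obtain ⟨z, hz⟩ := hD₁ i m
    refine ⟨(∏ j ∈ univ.erase i, D₀ j : ℕ) * z, ?_⟩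
    rw [← prod_erase_mul _ _ (mem_univ i), Nat.cast_mul, mul_assoc, hz, Int.cast_mul,
      Int.cast_natCast]
  have p0 : 0 < q - 1 := by omega
  have t1 : Tendsto (fun t : ℕ => n₀ + D * ((q - 1) * t)) atTop atTop :=
    tendsto_atTop_mono (fun t => ((Nat.le_mul_of_pos_left t p0).trans
      (Nat.le_mul_of_pos_left _ D0)).trans (Nat.le_add_left _ _)) tendsto_id
  have e1 : ∀ᶠ x : ℕ in atTop, ∀ i, ∀ m ∈ range ((H i).natDegree + 1),
      0 < (hasseDeriv m (H i)).eval (x : ℚ) :=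
    eventually_all.2 fun i => (eventually_all_finset _).2 fun m hm =>
      let ⟨g1, g2⟩ := H82.hasse_top (H i) _ m rfl (Nat.lt_succ_iff.1 (mem_range.1 hm))
        (lead_pos _ (hd i).1 _ (ha i))
      H82.ev_pos _ _ g1 g2
  obtain ⟨t, ht⟩ := (t1.eventually e1).exists
  choose Q h1 h2 h3 using fun i => H82.exists_nat_poly (H i) (a i) (ha i) D (hD i) _
    fun m hm => ht i m (mem_range.2 (Nat.lt_succ_of_le hm))
  have Dq : (0 : ℚ) < D := by exact_mod_cast D0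
  obtain ⟨y₀, k1, k2⟩ := generic hq Q (fun i => by
      have := mul_pos (pow_pos Dq 1) (ht i 1 (mem_range.2 (Nat.lt_succ_of_le (hd i).1)))
      rw [← h2] at this
      exact_mod_cast this) (fun i j u h => by
      by_contra hij
      have h4 := hu i j hij u
      rw [← natDegree_taylor _ ((n₀ + D * ((q - 1) * t) : ℕ) : ℚ)] at h4
      refine absurd (natDegree_le_iff_coeff_eq_zero.2 fun n hn => ?_) (not_le.2 h4)
      obtain ⟨n, rfl⟩ : ∃ k, n = k + 1 := ⟨n - 1, by omega⟩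
      have h5 := congrArg (Nat.cast : ℕ → ℚ) (h n)
      rw [Nat.cast_mul, h2, h2, Nat.cast_pow, mul_left_comm] at h5
      rw [map_sub, ← smul_eq_C_mul, map_smul, coeff_sub, coeff_smul, taylor_coeff, taylor_coeff,
        sub_eq_zero]
      exact mul_left_cancel₀ (pow_pos Dq _).ne' h5) p0
  have ev : ∀ i y, ((taylor ((q - 1) * y₀) (Q i)).comp (C (q - 1) * X)).eval y =
      a i (n₀ + D * ((q - 1) * (t + y₀ + y))) := fun i y => by
    rw [eval_comp, eval_mul, eval_C, eval_X, taylor_eval, h3]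
    congr 1
    ring
  refine ⟨n₀ + D * ((q - 1) * (t + y₀)), D * (q - 1),
    fun i => (taylor ((q - 1) * y₀) (Q i)).comp (C (q - 1) * X), Nat.mul_pos D0 p0, fun i => ?_,
    fun i => ?_, fun i n => ?_, fun i j u v h => ?_, fun i y => ?_, fun i y => ?_⟩
  · refine natDegree_le_iff_coeff_eq_zero.2 fun n hn => ?_
    rw [comp_C_mul_X_coeff, coeff_eq_zero_of_natDegree_lt, zero_mul]
    rw [natDegree_taylor]
    exact lt_of_le_of_lt ((h1 i).trans (hd i).2) hn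
  · rw [comp_C_mul_X_coeff]
    exact Nat.mul_pos (k1 i) (Nat.pow_pos p0)
  · rw [comp_C_mul_X_coeff]
    exact (dvd_pow_self _ n.succ_ne_zero).mul_left _
  · rw [comp_C_mul_X_coeff, comp_C_mul_X_coeff, ← mul_assoc, ← mul_assoc] at h
    exact k2 i j u v (Nat.eq_of_mul_eq_mul_right (Nat.pow_pos p0) h)
  · rw [ev]
    congr 1
    ring
  · rw [ev]
    exact poly_modEq _ _ (ha i) D D0 (hD i) _ _ _

theorem joint (d m : ℕ) (hm : 1 ≤ m) : ∃ α : ℝ, 0 < α ∧ ∀ q : ℕ, 2 ≤ q →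
    ∀ (s : ℕ) (H : Fin s → ℚ[X]) (a : Fin s → ℕ → ℕ),
      (∀ i (n : ℕ), (a i n : ℚ) = (H i).eval (n : ℚ)) →
      (∀ i, 1 ≤ (H i).natDegree ∧ (H i).natDegree ≤ d) →
      (∀ i j, i ≠ j → ∀ u : ℕ, 1 ≤ (C ((q : ℚ) ^ u) * H i - H j).natDegree) →
      ∀ (g : Fin s → ℕ) (n₀ : ℕ), (∀ i, a i n₀ ≡ g i [MOD Nat.gcd m (q - 1)]) →
        ∀ᶠ N : ℕ in atTop, (N : ℝ) ^ α ≤
          (((range N).filter fun n => ∀ i, sd q (a i n) ≡ g i [MOD m]).card : ℝ) := by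
  obtain ⟨e, he⟩ := many (d + 1) m (by omega) hm
  refine ⟨((e + 2 : ℕ) : ℝ)⁻¹, by positivity, fun q hq s H a ha hd hu g n₀ hg => ?_⟩
  obtain ⟨x, D, Q, D0, h1, h2, h3, h4, h5, h6⟩ := to_nat hq H a ha hd hu n₀
  replace h1 : ∀ i, (Q i).natDegree ≤ d + 1 := fun i => (h1 i).trans d.le_succ
  have : NeZero (m * (q - 1)) := ⟨(Nat.mul_pos hm (by omega)).ne'⟩
  have cr := fun i => Nat.chineseRemainder' (hg i).symm
  obtain ⟨y, hy⟩ := surj (QA_sd hq (ZMod (m * (q - 1)))) hq (WI_sd hq _) (by omega) Q h1 h2 h3 h4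
    (fun i => ((cr i).1 : ℕ)) fun i y => by
      obtain ⟨k, hk⟩ := ((cr i).2.2.trans ((sd_modEq hq _).trans (h6 i y)).symm).dvd
      exact ⟨k, by simpa using congrArg (Int.cast : ℤ → ZMod (m * (q - 1))) hk⟩
  have hy' : ∀ i, sd q ((Q i).eval y) ≡ g i [MOD m] := fun i =>
    (((ZMod.natCast_eq_natCast_iff _ _ _).1 (hy i)).of_mul_right _).trans (cr i).2.1
  have t1 : Tendsto (fun N : ℕ => ⌊(N : ℝ) ^ ((e + 2 : ℕ) : ℝ)⁻¹⌋₊) atTop atTop :=
    tendsto_nat_floor_atTop.comp ((tendsto_rpow_atTop (by positivity)).comp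
      tendsto_natCast_atTop_atTop)
  filter_upwards [t1.eventually ((he q _ (QA_sd hq (ZMod m)) hq Q h1 y).and
    (eventually_gt_atTop (x + D * y + D)))] with N ⟨⟨G, g1, g2, g3⟩, hZ⟩
  have z1 : ⌊(N : ℝ) ^ ((e + 2 : ℕ) : ℝ)⁻¹⌋₊ ^ (e + 2) ≤ N := by
    have := pow_le_pow_left₀ (Nat.cast_nonneg _)
      (Nat.floor_le (a := (N : ℝ) ^ ((e + 2 : ℕ) : ℝ)⁻¹) (by positivity)) (e + 2)
    rw [Real.rpow_inv_natCast_pow (Nat.cast_nonneg _) (by omega)] at this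
    exact_mod_cast this
  refine (Nat.lt_floor_add_one _).le.trans ?_
  generalize ⌊(N : ℝ) ^ ((e + 2 : ℕ) : ℝ)⁻¹⌋₊ = Z at *
  rw [← Nat.cast_add_one, Nat.cast_le, ← card_range (Z + 1)]
  refine card_le_card_of_injOn (fun b => x + D * (b * G + y)) (fun b hb => ?_)
    fun b _ b' _ h => ?_
  · have hb' : b ≤ Z := Nat.lt_succ_iff.1 (mem_range.1 (mem_coe.1 hb))
    refine mem_coe.2 (mem_filter.2 ⟨mem_range.2 (lt_of_lt_of_le ?_ z1), fun i => ?_⟩)
    · have a1 := Nat.mul_le_mul hb' g2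
      have a2 : 0 < Z * Z ^ e := Nat.mul_pos (by omega) (lt_of_lt_of_le g1 g2)
      have a3 := Nat.mul_le_mul_left D a1
      have a4 := Nat.mul_lt_mul_of_pos_right hZ a2
      have a5 := Nat.le_mul_of_pos_right (x + D * y) a2
      rw [show Z ^ (e + 2) = Z * (Z * Z ^ e) by ring]
      simp only [mul_add, add_mul] at *
      omega
    · rw [← h5]
      exact ((ZMod.natCast_eq_natCast_iff _ _ _).1 (g3 b hb' i)).trans (hy' i)
  · exact Nat.eq_of_mul_eq_mul_right g1 (Nat.add_right_cancel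
      (Nat.eq_of_mul_eq_mul_left D0 (Nat.add_left_cancel h)))

end Pool.Agent.MP_b1aeef_nt.H78
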